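import Mathlib

set_option autoImplicit false

/-!
# The sparse set in the theorem of Matomäki and Radziwiłł: definitions

Mean values of a completely multiplicative function twisted by `n^(-it)`, seen as vectors indexed
by a sparse set of well spaced `t`.
-/

namespace Pool.Agent.Lib.MP_9fe581_an.EXC

open Finset

/-- `x ^ (iu)` for a real number `x`. -/
noncomputable def cit (u x : ℝ) : ℂ := Complex.exp (Complex.I * ((u * Real.log x : ℝ) : ℂ))

/-- The mean value `(1/v) ∑_{n ≤ v} a n · n ^ (-it)`. -/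
noncomputable def MM (a : ℕ → ℂ) (v t : ℝ) : ℂ :=
  (∑ n ∈ Icc 1 ⌊v⌋₊, a n * cit (-t) n) / (v : ℂ)

/-- The square of the norm of the vector of the mean values over the set `B`. -/
noncomputable def EE (a : ℕ → ℂ) (B : Finset ℝ) (v : ℝ) : ℝ := ∑ t ∈ B, ‖MM a v t‖ ^ 2

/-- The points have mutual distances at least one. -/
def Sep (B : Finset ℝ) : Prop := ∀ t ∈ B, ∀ t' ∈ B, t ≠ t' → 1 ≤ |t - t'|

/-- The smoothed sum `∑_{n ≤ 2y} (2 - n/y) n^(iu)`. -/
noncomputable def WW (u y : ℝ) : ℂ :=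
  ∑ n ∈ Icc 1 ⌊2 * y⌋₊, ((2 - (n : ℝ) / y : ℝ) : ℂ) * cit u n

/-- The Mellin transform of `(2 - x)_+` at `1 + iu`. -/
noncomputable def kap (u : ℝ) : ℂ :=
  4 * cit u 2 / ((1 + Complex.I * (u : ℂ)) * (2 + Complex.I * (u : ℂ)))

/-- The smoothed sums at the differences of the points are what they should be, up to the
relative error `ρ`, for `Y0 ≤ y ≤ Y1`. -/
def Ker (B : Finset ℝ) (Y0 Y1 ρ : ℝ) : Prop := ∀ t ∈ B, ∀ t' ∈ B, ∀ y : ℝ, Y0 ≤ y → y ≤ Y1 →
  ‖WW (t - t') y - y * cit (t - t') y * kap (t - t')‖ ≤ ρ * y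

/-- Completely multiplicative and bounded by one. -/
structure CM (f : ℕ → ℂ) : Prop where
  mul : ∀ m n, f (m * n) = f m * f n
  le : ∀ n, ‖f n‖ ≤ 1

end Pool.Agent.Lib.MP_9fe581_an.EXC
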