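import Pool.Agent.Lib.MP_9fe581_an.EXC.Defs

set_option autoImplicit false

/-!
# The smoothed sum of `n^(iu)` from the sharp sums
-/

namespace Pool.Agent.Lib.MP_9fe581_an.EXC

open Finset

private theorem a2_norm_cit (u x : ℝ) : ‖cit u x‖ = 1 := by
  unfold cit
  exact Complex.norm_exp_I_mul_ofReal _

private theorem a2_cit_mul (u : ℝ) {x y : ℝ} (hx : 0 < x) (hy : 0 < y) :
    cit u (x * y) = cit u x * cit u y := by
  unfold cit
  rw [← Complex.exp_add, Real.log_mul hx.ne' hy.ne']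
  congr 1
  push_cast
  ring

private theorem a2_cit_sub_le (u x y : ℝ) :
    ‖cit u x - cit u y‖ ≤ |u| * |Real.log x - Real.log y| := by
  have h := Real.norm_exp_I_mul_ofReal_sub_one_le (x := u * (Real.log x - Real.log y))
  have e : cit u x - cit u y = cit u y *
      (Complex.exp (Complex.I * ((u * (Real.log x - Real.log y) : ℝ) : ℂ)) - 1) := by
    unfold cit
    rw [mul_sub, ← Complex.exp_add, mul_one]
    congr 2
    push_cast
    ring
  rw [e, norm_mul, a2_norm_cit, one_mul, ← abs_mul]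
  exact h

/-- Abel summation, first form. -/
private theorem a2_abel1 (g : ℕ → ℂ) (N : ℕ) :
    ∑ n ∈ Icc 1 N, ((N : ℂ) - n) * g n = ∑ m ∈ range N, ∑ n ∈ Icc 1 m, g n := by
  induction N with
  | zero => simp
  | succ N ih =>
    rw [sum_range_succ, ← ih, sum_Icc_succ_top (by omega)]
    push_cast
    simp only [sub_self, zero_mul, add_zero]
    rw [← sum_add_distrib]
    exact sum_congr rfl fun n _ => by ring

private theorem a2_range (g : ℕ → ℂ) (N : ℕ) :
    ∑ m ∈ range N, (m : ℂ) * g m = ∑ n ∈ Icc 1 N, (n : ℂ) * g n - N * g N := by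
  induction N with
  | zero => simp
  | succ N ih =>
    rw [sum_range_succ, ih, sum_Icc_succ_top (by omega)]
    ring

private theorem a2_norm_one_add (u : ℝ) : 1 ≤ ‖1 + Complex.I * (u : ℂ)‖ ∧
    |u| ≤ ‖1 + Complex.I * (u : ℂ)‖ ∧ 2 ≤ ‖2 + Complex.I * (u : ℂ)‖ ∧
    ‖1 + Complex.I * (u : ℂ)‖ ≤ ‖2 + Complex.I * (u : ℂ)‖ := by
  have h1 : (1 + Complex.I * (u : ℂ)).re = 1 := by simp
  have h2 : (1 + Complex.I * (u : ℂ)).im = u := by simp
  have h3 : (2 + Complex.I * (u : ℂ)).re = 2 := by simp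
  have h4 : (2 + Complex.I * (u : ℂ)).im = u := by simp
  refine ⟨?_, ?_, ?_, ?_⟩
  · have := Complex.abs_re_le_norm (1 + Complex.I * (u : ℂ))
    rw [h1] at this
    simpa using this
  · have := Complex.abs_im_le_norm (1 + Complex.I * (u : ℂ))
    rwa [h2] at this
  · have := Complex.abs_re_le_norm (2 + Complex.I * (u : ℂ))
    rw [h3] at this
    simpa using this
  · rw [Complex.norm_def, Complex.norm_def]
    apply Real.sqrt_le_sqrt
    rw [Complex.normSq_apply, Complex.normSq_apply, h1, h2, h3, h4]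
    norm_num

theorem smoothP_of {E u y : ℝ} (hy : 1 ≤ y) (hE : 0 ≤ E)
    (h : ∀ N : ℕ, (N : ℝ) ≤ 2 * y →
      ‖∑ n ∈ Icc 1 N, cit u n - N * cit u N / (1 + Complex.I * (u : ℂ))‖ ≤ E) :
    ‖WW u y - y * cit u y * kap u‖ ≤ 4 * E + 12 := by
  obtain ⟨ha1, hau, hb2, hab⟩ := a2_norm_one_add u
  set a : ℂ := 1 + Complex.I * (u : ℂ) with hadef
  set b : ℂ := 2 + Complex.I * (u : ℂ) with hbdef
  have hb : b = a + 1 := by rw [hadef, hbdef]; ring
  have ha0 : a ≠ 0 := by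
    intro h0; rw [h0, norm_zero] at ha1; linarith
  have hb0 : b ≠ 0 := by
    intro h0; rw [h0, norm_zero] at hb2; linarith
  have hy0 : 0 < y := by linarith
  set N : ℕ := ⌊2 * y⌋₊ with hN
  have hNle : (N : ℝ) ≤ 2 * y := Nat.floor_le (by linarith)
  have hNlt : 2 * y < N + 1 := Nat.lt_floor_add_one _
  have hN2 : 2 ≤ N := Nat.le_floor (by push_cast; linarith)
  have hN1 : (1 : ℝ) ≤ N := by
    have : (2 : ℝ) ≤ N := by exact_mod_cast hN2
    linarith
  have hN0 : (0 : ℝ) < N := by linarith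
  set g : ℕ → ℂ := fun n => cit u n with hg
  set S : ℕ → ℂ := fun m => ∑ n ∈ Icc 1 m, g n with hS
  set e : ℕ → ℂ := fun m => S m - m * g m / a with he
  have heb : ∀ m : ℕ, (m : ℝ) ≤ 2 * y → ‖e m‖ ≤ E := fun m hm => h m hm
  set T : ℂ := ∑ m ∈ range N, S m with hT
  set Z : ℂ := ∑ m ∈ range N, e m with hZ
  have hT1 : T = N * S N - ∑ n ∈ Icc 1 N, (n : ℂ) * g n := by
    rw [hT, ← a2_abel1 g N, hS]
    simp only
    rw [mul_sum, ← sum_sub_distrib]
    exact sum_congr rfl fun n _ => by ring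
  have hT2 : a * T = ∑ n ∈ Icc 1 N, (n : ℂ) * g n - N * g N + a * Z := by
    rw [← a2_range g N, hT, hZ, mul_sum, mul_sum, ← sum_add_distrib]
    refine sum_congr rfl fun m _ => ?_
    rw [he]
    simp only
    field_simp
    ring
  have hSN : S N = N * g N / a + e N := by rw [he]; ring
  have hT3 : T = N ^ 2 * g N / (a * b) + N * e N / b - N * g N / b + a / b * Z := by
    have hbT : b * T = N * S N - N * g N + a * Z := by
      rw [hb, add_mul, one_mul, hT2]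
      linear_combination hT1
    have : T = (N * S N - N * g N + a * Z) / b := by
      rw [← hbT]; field_simp
    rw [this, hSN]
    field_simp
  have hW : (y : ℂ) * WW u y = (2 * y - N : ℝ) * S N + T := by
    rw [WW, ← hN, hT, ← a2_abel1 g N, hS]
    simp only
    rw [mul_sum, mul_sum, ← sum_add_distrib]
    refine sum_congr rfl fun n _ => ?_
    have : (y : ℂ) ≠ 0 := by exact_mod_cast hy0.ne'
    push_cast
    field_simp
    ring
  have hc : cit u (2 * y) = cit u 2 * cit u y := a2_cit_mul u (by norm_num) hy0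
  have hmain : (y : ℂ) * (WW u y - y * cit u y * kap u) =
      (2 * y - N : ℝ) * S N + (N ^ 2 * g N - (2 * y : ℝ) ^ 2 * cit u (2 * y)) / (a * b) +
        N * e N / b - N * g N / b + a / b * Z := by
    rw [mul_sub, hW, hT3, kap, ← hadef, ← hbdef, hc]
    push_cast
    field_simp
    ring
  -- the bounds
  have hgn : ∀ n : ℕ, ‖g n‖ = 1 := fun n => a2_norm_cit u n
  have hSn : ‖S N‖ ≤ N := by
    calc ‖S N‖ ≤ ∑ n ∈ Icc 1 N, ‖g n‖ := norm_sum_le _ _
      _ = N := by simp [hgn]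
  have b1 : ‖((2 * y - N : ℝ) : ℂ) * S N‖ ≤ 2 * y := by
    rw [norm_mul, Complex.norm_real, Real.norm_eq_abs, abs_of_nonneg (by linarith)]
    calc (2 * y - N) * ‖S N‖ ≤ 1 * N := by
          apply mul_le_mul (by linarith) hSn (norm_nonneg _) (by norm_num)
      _ ≤ 2 * y := by linarith
  have b2 : ‖(N ^ 2 * g N - ((2 * y : ℝ) : ℂ) ^ 2 * cit u (2 * y)) / (a * b)‖ ≤ 3 * y := by
    rw [norm_div, norm_mul, div_le_iff₀ (by positivity)]
    have hdec : (N ^ 2 * g N - ((2 * y : ℝ) : ℂ) ^ 2 * cit u (2 * y) : ℂ) =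
        ((N : ℂ) ^ 2 - ((2 * y : ℝ) : ℂ) ^ 2) * cit u (2 * y) +
          (N : ℂ) ^ 2 * (cit u N - cit u (2 * y)) := by
      rw [hg]; ring
    have hlog : |Real.log N - Real.log (2 * y)| ≤ 1 / N := by
      rw [abs_sub_comm, abs_of_nonneg (by
        have := Real.log_le_log hN0 hNle
        linarith), ← Real.log_div (by linarith) hN0.ne']
      have h1 := Real.log_le_sub_one_of_pos (x := 2 * y / N) (by positivity)
      refine h1.trans ?_
      rw [div_sub_one hN0.ne']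
      gcongr
      linarith
    have hcs := a2_cit_sub_le u N (2 * y)
    have n1 : ‖((N : ℂ) ^ 2 - ((2 * y : ℝ) : ℂ) ^ 2) * cit u (2 * y)‖ ≤ 4 * y := by
      rw [norm_mul, a2_norm_cit, mul_one]
      have : ((N : ℂ) ^ 2 - ((2 * y : ℝ) : ℂ) ^ 2) = (((N : ℝ) ^ 2 - (2 * y) ^ 2 : ℝ) : ℂ) := by
        push_cast; ring
      rw [this, Complex.norm_real, Real.norm_eq_abs, abs_sub_comm, abs_of_nonneg (by nlinarith)]
      nlinarith
    have n2 : ‖(N : ℂ) ^ 2 * (cit u N - cit u (2 * y))‖ ≤ 2 * y * |u| := by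
      rw [norm_mul, norm_pow, Complex.norm_natCast]
      calc (N : ℝ) ^ 2 * ‖cit u N - cit u (2 * y)‖ ≤ (N : ℝ) ^ 2 * (|u| * (1 / N)) := by
            gcongr
            exact hcs.trans (by gcongr)
        _ = N * |u| := by field_simp
        _ ≤ 2 * y * |u| := by gcongr
    rw [hdec]
    have hab' : 2 ≤ ‖a‖ * ‖b‖ := by nlinarith
    have hab'' : 2 * |u| ≤ ‖a‖ * ‖b‖ := by
      nlinarith [abs_nonneg u]
    calc _ ≤ 4 * y + 2 * y * |u| := (norm_add_le _ _).trans (add_le_add n1 n2)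
      _ ≤ 3 * y * (‖a‖ * ‖b‖) := by nlinarith
  have b3 : ‖(N : ℂ) * e N / b‖ ≤ y * E := by
    rw [norm_div, norm_mul, Complex.norm_natCast, div_le_iff₀ (by positivity)]
    have := heb N hNle
    calc (N : ℝ) * ‖e N‖ ≤ (2 * y) * E := by gcongr
      _ = y * E * 2 := by ring
      _ ≤ y * E * ‖b‖ := by gcongr
  have b4 : ‖(N : ℂ) * g N / b‖ ≤ y := by
    rw [norm_div, norm_mul, Complex.norm_natCast, hgn, div_le_iff₀ (by positivity)]
    calc (N : ℝ) * 1 ≤ y * 2 := by linarith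
      _ ≤ y * ‖b‖ := by gcongr
  have b5 : ‖a / b * Z‖ ≤ 2 * y * E := by
    rw [norm_mul, norm_div]
    have hZb : ‖Z‖ ≤ N * E := by
      calc ‖Z‖ ≤ ∑ m ∈ range N, ‖e m‖ := norm_sum_le _ _
        _ ≤ ∑ _m ∈ range N, E := by
            refine sum_le_sum fun m hm => heb m ?_
            have : (m : ℝ) ≤ N := by exact_mod_cast (mem_range.1 hm).le
            linarith
        _ = N * E := by simp
    calc ‖a‖ / ‖b‖ * ‖Z‖ ≤ 1 * (N * E) := by
          gcongr
          exact div_le_one_of_le₀ hab (norm_nonneg _)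
      _ ≤ 2 * y * E := by rw [one_mul]; gcongr
  have htot : ‖(y : ℂ) * (WW u y - y * cit u y * kap u)‖ ≤ y * (3 * E + 6) := by
    rw [hmain]
    calc _ ≤ 2 * y + 3 * y + y * E + y + 2 * y * E := by
          refine (norm_add_le _ _).trans (add_le_add ?_ b5)
          refine (norm_sub_le _ _).trans (add_le_add ?_ b4)
          refine (norm_add_le _ _).trans (add_le_add ?_ b3)
          exact (norm_add_le _ _).trans (add_le_add b1 b2)
      _ = y * (3 * E + 6) := by ring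
  rw [norm_mul, Complex.norm_real, Real.norm_eq_abs, abs_of_pos hy0] at htot
  have := le_of_mul_le_mul_left htot hy0
  linarith

private theorem a2_large : ∃ X0 : ℝ, 3 ≤ X0 ∧ ∀ X : ℝ, X0 ≤ X →
    4 * X ^ (7 / 8 : ℝ) + 12 ≤ X ^ (22 / 25 : ℝ) := by
  have h1 : Filter.Tendsto (fun X : ℝ => X ^ (1 / 200 : ℝ)) Filter.atTop Filter.atTop :=
    tendsto_rpow_atTop (by norm_num)
  obtain ⟨X1, hX1⟩ := Filter.eventually_atTop.1 (h1.eventually_ge_atTop 16)
  refine ⟨max X1 3, le_max_right _ _, fun X hX => ?_⟩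
  have h3 : 3 ≤ X := (le_max_right _ _).trans hX
  have h16 := hX1 X ((le_max_left _ _).trans hX)
  have e : X ^ (22 / 25 : ℝ) = X ^ (1 / 200 : ℝ) * X ^ (7 / 8 : ℝ) := by
    rw [← Real.rpow_add (by linarith)]
    norm_num
  have h78 : 1 ≤ X ^ (7 / 8 : ℝ) := Real.one_le_rpow (by linarith) (by norm_num)
  rw [e]
  nlinarith

/-- The kernel hypothesis from the sharp sums of `n^(iu)` at the differences of the points. -/
theorem ker_of : ∃ X0 : ℝ, 3 ≤ X0 ∧ ∀ X : ℝ, X0 ≤ X → ∀ B : Finset ℝ,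
    (∀ t ∈ B, ∀ t' ∈ B, ∀ N : ℕ, (N : ℝ) ≤ 4 * X →
      ‖∑ n ∈ Icc 1 N, cit (t - t') n -
        N * cit (t - t') N / (1 + Complex.I * ((t - t' : ℝ) : ℂ))‖ ≤ X ^ (7 / 8 : ℝ)) →
    Ker B (X ^ (49 / 50 : ℝ)) (2 * X) (X ^ (-(1 / 10) : ℝ)) := by
  obtain ⟨X0, h30, hX0⟩ := a2_large
  refine ⟨X0, h30, fun X hX B h t ht t' ht' y hy0 hy1 => ?_⟩
  have h3 : 3 ≤ X := h30.trans hX
  have hX' : 0 < X := by linarith
  have hy : 1 ≤ y := (Real.one_le_rpow (by linarith) (by norm_num)).trans hy0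
  have h1 := smoothP_of (E := X ^ (7 / 8 : ℝ)) (u := t - t') hy (by positivity)
    (fun N hN => h t ht t' ht' N (by linarith))
  refine h1.trans ((hX0 X hX).trans ?_)
  calc X ^ (22 / 25 : ℝ) = X ^ (-(1 / 10) : ℝ) * X ^ (49 / 50 : ℝ) := by
        rw [← Real.rpow_add hX']
        norm_num
    _ ≤ X ^ (-(1 / 10) : ℝ) * y := by gcongr

/-- The kernel for all points of `[-X, X]`, from the estimate of the sharp sums. -/
theorem ker_pow_of (hs : ∃ X0 : ℝ, 3 ≤ X0 ∧ ∀ X : ℝ, X0 ≤ X → ∀ u : ℝ, |u| ≤ 2 * X →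
    ∀ N : ℕ, (N : ℝ) ≤ 4 * X →
    ‖∑ n ∈ Icc 1 N, cit u n - N * cit u N / (1 + Complex.I * (u : ℂ))‖ ≤ X ^ (7 / 8 : ℝ)) :
    ∃ X0 : ℝ, 3 ≤ X0 ∧ ∀ X : ℝ, X0 ≤ X → ∀ B : Finset ℝ, (∀ t ∈ B, |t| ≤ X) →
      Ker B (X ^ (49 / 50 : ℝ)) (2 * X) (X ^ (-(1 / 10) : ℝ)) := by
  obtain ⟨X1, h31, hX1⟩ := hs
  obtain ⟨X2, h32, hX2⟩ := ker_of
  refine ⟨max X1 X2, h31.trans (le_max_left _ _), fun X hX B hB => ?_⟩
  refine hX2 X ((le_max_right _ _).trans hX) B fun t ht t' ht' N hN => ?_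
  refine hX1 X ((le_max_left _ _).trans hX) (t - t') ?_ N hN
  have h1 := abs_sub t t'
  have h2 := hB t ht
  have h3 := hB t' ht'
  linarith

end Pool.Agent.Lib.MP_9fe581_an.EXC
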