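import Pool.Agent.Lib.MP_9fe581_an.EXC.Cit
import Pool.Agent.Lib.MP_092512_nt.VC.V1

set_option autoImplicit false

/-!
# Sums of `n^(iu)` with a power saving
-/

namespace Pool.Agent.Lib.MP_9fe581_an.EXC

open Finset

private theorem a1_deriv (u : ℝ) {x : ℝ} (hx : 0 < x) :
    HasDerivAt (fun y : ℝ => (y : ℂ) * cit u y / (1 + Complex.I * (u : ℂ))) (cit u x) x := by
  have hne : (1 + Complex.I * (u : ℂ)) ≠ 0 := by
    intro h
    have := congrArg Complex.re h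
    simp at this
  have h1 : HasDerivAt (fun y : ℝ => ((u * Real.log y : ℝ) : ℂ)) ((u * x⁻¹ : ℝ) : ℂ) x :=
    ((Real.hasDerivAt_log hx.ne').const_mul u).ofReal_comp
  have h2 : HasDerivAt (fun y : ℝ => cit u y) (cit u x * (Complex.I * ((u * x⁻¹ : ℝ) : ℂ))) x :=
    (h1.const_mul Complex.I).cexp
  have h3 : HasDerivAt (fun y : ℝ => (y : ℂ)) 1 x := by
    simpa using (hasDerivAt_id x).ofReal_comp
  have h4 := (h3.mul h2).div_const (1 + Complex.I * (u : ℂ))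
  have e : (1 * cit u x + (x : ℂ) * (cit u x * (Complex.I * ((u * x⁻¹ : ℝ) : ℂ)))) / (1 + Complex.I * (u : ℂ))
      = cit u x := by
    have hxc : (x : ℂ) ≠ 0 := by exact_mod_cast hx.ne'
    rw [div_eq_iff hne]
    push_cast
    field_simp
  rw [e] at h4
  exact h4

/-- one step of Euler - Maclaurin -/
private theorem a1_step (u : ℝ) (n : ℕ) (hn : 1 ≤ n) :
    ‖cit u ((n : ℝ) + 1) - (((n : ℝ) + 1 : ℝ) * cit u ((n : ℝ) + 1) / (1 + Complex.I * (u : ℂ))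
      - (n : ℝ) * cit u (n : ℝ) / (1 + Complex.I * (u : ℂ)))‖ ≤ |u| / n := by
  have hn0 : (0 : ℝ) < n := by exact_mod_cast hn
  set g : ℝ → ℂ := fun y => (y : ℂ) * cit u y / (1 + Complex.I * (u : ℂ)) - (y : ℂ) * cit u ((n : ℝ) + 1) with hg
  have hd : ∀ x ∈ Set.Icc (n : ℝ) ((n : ℝ) + 1), HasDerivWithinAt g (cit u x - cit u ((n : ℝ) + 1))
      (Set.Icc (n : ℝ) ((n : ℝ) + 1)) x := by
    intro x hx
    have hx0 : 0 < x := lt_of_lt_of_le hn0 hx.1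
    have h3 : HasDerivAt (fun y : ℝ => (y : ℂ) * cit u ((n : ℝ) + 1)) (cit u ((n : ℝ) + 1)) x := by
      simpa using ((hasDerivAt_id x).ofReal_comp).mul_const (cit u ((n : ℝ) + 1))
    exact ((a1_deriv u hx0).sub h3).hasDerivWithinAt
  have hb : ∀ x ∈ Set.Ico (n : ℝ) ((n : ℝ) + 1), ‖cit u x - cit u ((n : ℝ) + 1)‖ ≤ |u| / n := by
    intro x hx
    have hx0 : 0 < x := lt_of_lt_of_le hn0 hx.1
    refine (cit_sub_le' u hx0 (by linarith)).trans ?_
    rw [div_eq_mul_inv]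
    refine mul_le_mul_of_nonneg_left ?_ (abs_nonneg u)
    have h1 : Real.log x ≤ Real.log ((n : ℝ) + 1) := Real.log_le_log hx0 hx.2.le
    have h0 : Real.log n ≤ Real.log x := Real.log_le_log hn0 hx.1
    rw [abs_sub_comm, abs_of_nonneg (by linarith)]
    have h2 : Real.log ((n : ℝ) + 1) - Real.log n ≤ (n : ℝ)⁻¹ := by
      rw [← Real.log_div (by positivity) hn0.ne']
      refine (Real.log_le_sub_one_of_pos (by positivity)).trans_eq ?_
      field_simp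
      ring
    linarith
  have key := norm_image_sub_le_of_norm_deriv_le_segment' hd hb ((n : ℝ) + 1) ⟨by linarith, le_rfl⟩
  have e : g ((n : ℝ) + 1) - g n = -(cit u ((n : ℝ) + 1) - (((n : ℝ) + 1 : ℝ) * cit u ((n : ℝ) + 1) /
      (1 + Complex.I * (u : ℂ)) - (n : ℝ) * cit u (n : ℝ) / (1 + Complex.I * (u : ℂ)))) := by
    simp only [hg]
    push_cast
    ring
  rw [e, norm_neg] at key
  refine key.trans_eq ?_
  ring

/-- first order Euler - Maclaurin -/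
private theorem a1_em (u : ℝ) (N : ℕ) :
    ‖∑ n ∈ Icc 1 N, cit u n - N * cit u N / (1 + Complex.I * (u : ℂ))‖
      ≤ |u| * (1 + Real.log N) + 2 := by
  have h1 : ∀ N : ℕ, 1 ≤ N → ‖∑ n ∈ Icc 1 N, cit u n - N * cit u N / (1 + Complex.I * (u : ℂ))‖
      ≤ |u| * (∑ n ∈ Ico 1 N, 1 / (n : ℝ)) + 2 := by
    intro N hN
    induction N, hN using Nat.le_induction with
    | base =>
      simp only [Finset.Icc_self, Finset.sum_singleton, Nat.cast_one, one_mul, Finset.Ico_self,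
        Finset.sum_empty, mul_zero, zero_add]
      rw [cit_one]
      refine (norm_sub_le _ _).trans ?_
      rw [norm_one, norm_div, norm_one]
      have h2 : 1 ≤ ‖(1 + Complex.I * (u : ℂ))‖ := by
        have := Complex.abs_re_le_norm (1 + Complex.I * (u : ℂ))
        simpa using this
      have h3 : 1 / ‖(1 + Complex.I * (u : ℂ))‖ ≤ 1 := by
        rw [div_le_one (by linarith)]; exact h2
      linarith
    | succ n hn ih =>
      rw [Finset.sum_Icc_succ_top (by omega), Finset.sum_Ico_succ_top hn]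
      have hs := a1_step u n hn
      have e : ∑ k ∈ Icc 1 n, cit u k + cit u ((n + 1 : ℕ) : ℝ)
          - ((n + 1 : ℕ) : ℂ) * cit u ((n + 1 : ℕ) : ℝ) / (1 + Complex.I * (u : ℂ))
          = (∑ k ∈ Icc 1 n, cit u k - n * cit u n / (1 + Complex.I * (u : ℂ)))
            + (cit u ((n : ℝ) + 1) - (((n : ℝ) + 1 : ℝ) * cit u ((n : ℝ) + 1) /
            (1 + Complex.I * (u : ℂ)) - (n : ℝ) * cit u (n : ℝ) / (1 + Complex.I * (u : ℂ)))) := by
        push_cast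
        ring
      rw [e]
      refine (norm_add_le _ _).trans ((add_le_add ih hs).trans_eq ?_)
      ring
  rcases Nat.eq_zero_or_pos N with h | h
  · subst h
    simp only [Nat.cast_zero, zero_mul, zero_div, sub_zero, Real.log_zero, add_zero, mul_one]
    simp only [show Icc 1 0 = (∅ : Finset ℕ) from rfl, Finset.sum_empty, norm_zero]
    positivity
  · refine (h1 N h).trans ?_
    have h2 : ∑ n ∈ Ico 1 N, 1 / (n : ℝ) ≤ 1 + Real.log N := by
      have h3 := harmonic_le_one_add_log N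
      refine le_trans ?_ h3
      rw [harmonic_eq_sum_Icc]
      push_cast
      simp only [one_div]
      refine Finset.sum_le_sum_of_subset_of_nonneg ?_ fun _ _ _ => by positivity
      intro k hk
      rw [mem_Ico] at hk
      rw [mem_Icc]
      omega
    have := mul_le_mul_of_nonneg_left h2 (abs_nonneg u)
    linarith

/-- one block, `X = Z ^ 40` -/
private theorem a1_block {Z u : ℝ} (hZ : 4 ≤ Z) (hu1 : Z ^ 32 ≤ |u|) (hu2 : |u| ≤ 2 * Z ^ 40)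
    (k0 N : ℕ) (hk : Z ^ 28 ≤ k0) (hk' : (k0 : ℝ) ≤ 4 * Z ^ 40) (hN : 1 ≤ N) (hN2 : N ≤ k0) :
    ‖∑ n ∈ range N, cit u ((k0 : ℝ) + n)‖ ≤ 68 * Z ^ 34 := by
  have hZ0 : 0 < Z := by linarith
  have hZ1 : 1 ≤ Z := by linarith
  have hk0 : (0 : ℝ) < k0 := lt_of_lt_of_le (by positivity) hk
  have hNr : (1 : ℝ) ≤ N := by exact_mod_cast hN
  have hN2r : (N : ℝ) ≤ k0 := by exact_mod_cast hN2
  have hu0 : 0 < |u| := lt_of_lt_of_le (by positivity) hu1
  have hune : u ≠ 0 := abs_pos.1 hu0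
  set R : ℕ := ⌈Z ^ 12⌉₊ with hR
  have hR1 : Z ^ 12 ≤ R := Nat.le_ceil _
  have hR2 : (R : ℝ) ≤ 2 * Z ^ 12 := by
    have h1 := (Nat.ceil_lt_add_one (by positivity : 0 ≤ Z ^ 12)).le
    have h2 : 1 ≤ Z ^ 12 := one_le_pow₀ hZ1
    linarith
  have hR0 : (1 : ℝ) ≤ R := (one_le_pow₀ hZ1).trans hR1
  set d : ℕ := ⌈(k0 : ℝ) * Z ^ 12 / |u|⌉₊ with hd
  have hdpos : 0 < (k0 : ℝ) * Z ^ 12 / |u| := by positivity
  have hd1 : (k0 : ℝ) * Z ^ 12 / |u| ≤ d := Nat.le_ceil _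
  have hd2 : (d : ℝ) ≤ (k0 : ℝ) * Z ^ 12 / |u| + 1 := (Nat.ceil_lt_add_one hdpos.le).le
  have hd0 : 1 ≤ d := Nat.one_le_ceil_iff.2 hdpos
  have hd0r : (1 : ℝ) ≤ d := by exact_mod_cast hd0
  -- R d
  have a1 : (k0 : ℝ) * Z ^ 12 / |u| ≤ k0 * Z ^ 12 / Z ^ 32 :=
    div_le_div_of_nonneg_left (by positivity) (by positivity) hu1
  have a2 : (k0 : ℝ) * Z ^ 12 / Z ^ 32 = k0 / Z ^ 20 := by
    rw [div_eq_div_iff (by positivity) (by positivity)]; ring
  have a3 : (1 : ℝ) ≤ k0 / Z ^ 28 := by rw [one_le_div (by positivity)]; exact hk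
  have a4 : (k0 : ℝ) / Z ^ 28 ≤ k0 / Z ^ 20 :=
    div_le_div_of_nonneg_left hk0.le (by positivity) (pow_le_pow_right₀ hZ1 (by norm_num))
  have a5 : (d : ℝ) ≤ 2 * (k0 / Z ^ 20) := by linarith [a2 ▸ a1]
  have a6 : (R : ℝ) * d ≤ 4 * (k0 / Z ^ 8) := by
    calc (R : ℝ) * d ≤ (2 * Z ^ 12) * (2 * (k0 / Z ^ 20)) := mul_le_mul hR2 a5 (by positivity) (by positivity)
      _ = 4 * (k0 / Z ^ 8) := by field_simp; ring
  have hZ8 : (64 : ℝ) ≤ Z ^ 8 := by
    calc (64 : ℝ) = 4 ^ 3 := by norm_num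
      _ ≤ Z ^ 3 := pow_le_pow_left₀ (by norm_num) hZ 3
      _ ≤ Z ^ 8 := pow_le_pow_right₀ hZ1 (by norm_num)
  have a7 : (k0 : ℝ) / Z ^ 8 ≤ k0 / 64 := div_le_div_of_nonneg_left hk0.le (by norm_num) hZ8
  have hk64 : (64 : ℝ) ≤ k0 := hZ8.trans ((pow_le_pow_right₀ hZ1 (by norm_num)).trans hk)
  -- the hypotheses of vdc_ind
  have hx1 : (k0 : ℝ) + N + 1 + (1 : ℕ) * ((R : ℝ) * d) ≤ 3 * k0 := by
    rw [Nat.cast_one, one_mul]
    linarith
  have hpi : |u| * (((R : ℝ) * d) ^ 1 * ((1 : ℕ).factorial : ℝ) / (k0 : ℝ) ^ (1 + 1)) ≤ Real.pi := by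
    rw [pow_one, Nat.factorial_one, Nat.cast_one, mul_one]
    have b1 : (R : ℝ) * d ≤ 2 * Z ^ 12 * ((k0 : ℝ) * Z ^ 12 / |u| + 1) :=
      mul_le_mul hR2 hd2 (by positivity) (by positivity)
    have b2 : |u| * ((R : ℝ) * d / (k0 : ℝ) ^ (1 + 1))
        ≤ |u| * (2 * Z ^ 12 * ((k0 : ℝ) * Z ^ 12 / |u| + 1) / (k0 : ℝ) ^ (1 + 1)) := by
      gcongr
    have b3 : |u| * (2 * Z ^ 12 * ((k0 : ℝ) * Z ^ 12 / |u| + 1) / (k0 : ℝ) ^ (1 + 1))
        = 2 * Z ^ 24 / k0 + 2 * Z ^ 12 * |u| / (k0 : ℝ) ^ 2 := by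
      field_simp
    have b4 : 2 * Z ^ 24 / (k0 : ℝ) ≤ 2 * Z ^ 24 / Z ^ 28 :=
      div_le_div_of_nonneg_left (by positivity) (by positivity) hk
    have b5 : 2 * Z ^ 12 * |u| / (k0 : ℝ) ^ 2 ≤ 2 * Z ^ 12 * (2 * Z ^ 40) / (Z ^ 28) ^ 2 := by
      gcongr
    have b6 : 2 * Z ^ 24 / Z ^ 28 = 2 / Z ^ 4 := by
      rw [div_eq_div_iff (by positivity) (by positivity)]; ring
    have b7 : 2 * Z ^ 12 * (2 * Z ^ 40) / (Z ^ 28) ^ 2 = 4 / Z ^ 4 := by
      rw [div_eq_div_iff (by positivity) (by positivity)]; ring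
    have b8 : (6 : ℝ) / Z ^ 4 ≤ 3 := by
      rw [div_le_iff₀ (by positivity)]
      have : (4 : ℝ) ^ 4 ≤ Z ^ 4 := pow_le_pow_left₀ (by norm_num) hZ 4
      linarith
    have b9 : 2 / Z ^ 4 + 4 / Z ^ 4 = 6 / Z ^ 4 := by ring
    have := Real.pi_gt_three
    linarith
  have key := Pool.Agent.Lib.VDC.vdc_ind u k0 k0 1 d R N hd0 (by exact_mod_cast hR0) hN hk0 hune le_rfl
    hx1 hpi 1 le_rfl [] rfl (fun p hp => by simp at hp)
  have e0 : ∀ n : ℕ, cit u ((k0 : ℝ) + n) = Complex.exp (Complex.I *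
      ((u * Pool.Agent.Lib.VDC.D [] Real.log ((k0 : ℝ) + n) : ℝ) : ℂ)) := fun n => rfl
  simp_rw [e0]
  refine key.trans ?_
  simp only [Pool.Agent.Lib.VDC.fr]
  -- numbers
  set f0 : ℝ := 8 / (|u| * ((d : ℝ) ^ 1 * ((1 : ℕ).factorial : ℝ) / (3 * (k0 : ℝ)) ^ (1 + 1))) / N with hf0
  have c1 : f0 * N = 72 * k0 ^ 2 / (|u| * d) := by
    rw [hf0, div_mul_cancel₀ _ (by positivity : (N : ℝ) ≠ 0), Nat.factorial_one]
    field_simp
    ring
  have c2 : (k0 : ℝ) * Z ^ 12 ≤ |u| * d := by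
    rw [div_le_iff₀ hu0] at hd1
    linarith
  have c3 : f0 * N ≤ 72 * (k0 / Z ^ 12) := by
    rw [c1]
    calc 72 * (k0 : ℝ) ^ 2 / (|u| * d) ≤ 72 * (k0 : ℝ) ^ 2 / (k0 * Z ^ 12) :=
          div_le_div_of_nonneg_left (by positivity) (by positivity) c2
      _ = 72 * (k0 / Z ^ 12) := by field_simp
  have hf00 : 0 ≤ f0 := by rw [hf0]; positivity
  have c4 : Real.sqrt (1 / R + f0) * N ≤ 9 * (k0 / Z ^ 6) := by
    have d1 : (Real.sqrt (1 / R + f0) * N) ^ 2 ≤ (9 * (k0 / Z ^ 6)) ^ 2 := by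
      rw [mul_pow, Real.sq_sqrt (by positivity)]
      have d2 : (1 / (R : ℝ) + f0) * (N : ℝ) ^ 2 = (N : ℝ) ^ 2 / R + (f0 * N) * N := by ring
      rw [d2]
      have d3 : (N : ℝ) ^ 2 / R ≤ (k0 : ℝ) ^ 2 / Z ^ 12 := by gcongr
      have d4 : (f0 * N) * N ≤ 72 * (k0 / Z ^ 12) * k0 := mul_le_mul c3 hN2r (by positivity) (by positivity)
      have d5 : 72 * ((k0 : ℝ) / Z ^ 12) * k0 = 72 * (k0 ^ 2 / Z ^ 12) := by ring
      have d6 : (9 * ((k0 : ℝ) / Z ^ 6)) ^ 2 = 81 * (k0 ^ 2 / Z ^ 12) := by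
        rw [mul_pow, div_pow, ← pow_mul]; norm_num
      have d7 : 0 ≤ (k0 : ℝ) ^ 2 / Z ^ 12 := by positivity
      rw [d6]
      linarith
    exact (pow_le_pow_iff_left₀ (by positivity) (by positivity) two_ne_zero).1 d1
  have c5 : 2 * ((R * d : ℕ) : ℝ) / N * N ≤ 8 * (k0 / Z ^ 8) := by
    rw [div_mul_cancel₀ _ (by positivity : (N : ℝ) ≠ 0)]
    push_cast
    linarith
  have c6 : (k0 : ℝ) / Z ^ 8 ≤ k0 / Z ^ 6 :=
    div_le_div_of_nonneg_left hk0.le (by positivity) (pow_le_pow_right₀ hZ1 (by norm_num))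
  have c7 : (k0 : ℝ) / Z ^ 6 ≤ 4 * Z ^ 34 := by
    rw [div_le_iff₀ (by positivity)]
    calc (k0 : ℝ) ≤ 4 * Z ^ 40 := hk'
      _ = 4 * Z ^ 34 * Z ^ 6 := by ring
  rw [add_mul]
  linarith

/-- the dyadic sum -/
private theorem a1_dyadic {Z u : ℝ} (hZ : 4 ≤ Z) (hu1 : Z ^ 32 ≤ |u|) (hu2 : |u| ≤ 2 * Z ^ 40) :
    ∀ t : ℕ, (t : ℝ) ≤ 4 * Z ^ 40 →
      ‖∑ n ∈ Icc 1 t, cit u n‖ ≤ 2 * Z ^ 28 + 68 * Z ^ 34 * (Nat.log 2 t : ℕ) := by
  intro t
  induction t using Nat.strong_induction_on with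
  | _ t ih =>
    intro ht
    have hZ1 : 1 ≤ Z := by linarith
    by_cases hs : (t : ℝ) < 2 * Z ^ 28
    · have h1 : ‖∑ n ∈ Icc 1 t, cit u n‖ ≤ t := by
        refine (norm_sum_le _ _).trans ?_
        simp only [norm_cit]
        rw [sum_const, Nat.card_Icc, nsmul_eq_mul, mul_one, Nat.add_sub_cancel]
      have h2 : 0 ≤ 68 * Z ^ 34 * ((Nat.log 2 t : ℕ) : ℝ) := by positivity
      linarith
    · rw [not_lt] at hs
      have h28 : 1 ≤ Z ^ 28 := one_le_pow₀ hZ1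
      have ht2 : 2 ≤ t := by
        have : (2 : ℝ) ≤ t := by linarith
        exact_mod_cast this
      have hlt : t / 2 < t := Nat.div_lt_self (by omega) (by norm_num)
      have h1 := ih (t / 2) hlt (le_trans (by exact_mod_cast hlt.le) ht)
      have hlog : Nat.log 2 t = Nat.log 2 (t / 2) + 1 := Nat.log_of_one_lt_of_le (by norm_num) ht2
      have hsplit : ∑ n ∈ Icc 1 t, cit u n = ∑ n ∈ Icc 1 (t / 2), cit u n
          + ∑ n ∈ range (t - t / 2), cit u (((t / 2 + 1 : ℕ) : ℝ) + n) := by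
        have e1 : Icc 1 t = Ico 1 (t + 1) := rfl
        have e2 : Icc 1 (t / 2) = Ico 1 (t / 2 + 1) := rfl
        rw [e1, e2, ← Finset.sum_Ico_consecutive (fun n : ℕ => cit u n) (m := 1) (n := t / 2 + 1) (k := t + 1)
          (by omega) (by omega)]
        congr 1
        rw [Finset.sum_Ico_eq_sum_range]
        have e3 : t + 1 - (t / 2 + 1) = t - t / 2 := by omega
        rw [e3]
        refine Finset.sum_congr rfl fun n _ => ?_
        push_cast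
        rfl
      have hk28 : Z ^ 28 ≤ ((t / 2 + 1 : ℕ) : ℝ) := by
        have h3 : t ≤ 2 * (t / 2 + 1) := by omega
        have h4 : (t : ℝ) ≤ 2 * ((t / 2 + 1 : ℕ) : ℝ) := by exact_mod_cast h3
        linarith
      have hk40 : ((t / 2 + 1 : ℕ) : ℝ) ≤ 4 * Z ^ 40 := by
        have h3 : t / 2 + 1 ≤ t := by omega
        exact le_trans (by exact_mod_cast h3) ht
      have hb := a1_block hZ hu1 hu2 (t / 2 + 1) (t - t / 2) hk28 hk40 (by omega) (by omega)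
      rw [hsplit, hlog]
      refine (norm_add_le _ _).trans ((add_le_add h1 hb).trans_eq ?_)
      push_cast
      ring

private theorem a1_large : ∃ X0 : ℝ, 3 ≤ X0 ∧ ∀ X : ℝ, X0 ≤ X →
    4 ≤ X ^ (1 / 40 : ℝ) ∧ 140 * (1 + Real.log (4 * X)) + 10 ≤ X ^ (1 / 40 : ℝ) := by
  have h1 : Filter.Tendsto (fun X : ℝ => X ^ (1 / 40 : ℝ)) Filter.atTop Filter.atTop :=
    tendsto_rpow_atTop (by norm_num)
  have h2 := (isLittleO_log_rpow_atTop (show (0 : ℝ) < 1 / 40 by norm_num)).bound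
    (show (0 : ℝ) < 1 / 280 by norm_num)
  have h3 := h1.eventually (Filter.eventually_ge_atTop (1000 : ℝ))
  obtain ⟨X0, hX0⟩ := Filter.eventually_atTop.1 (h2.and h3)
  refine ⟨max X0 3, le_max_right _ _, fun X hX => ?_⟩
  obtain ⟨a, b⟩ := hX0 X ((le_max_left _ _).trans hX)
  have hX3 : 3 ≤ X := (le_max_right _ _).trans hX
  have hl : 0 ≤ Real.log X := Real.log_nonneg (by linarith)
  rw [Real.norm_of_nonneg hl, Real.norm_of_nonneg (by positivity)] at a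
  have h4 : Real.log (4 * X) = Real.log 4 + Real.log X := Real.log_mul (by norm_num) (by linarith)
  have h5 : Real.log 4 ≤ 2 := by
    have : Real.log 4 = 2 * Real.log 2 := by
      rw [show (4 : ℝ) = 2 ^ 2 by norm_num, Real.log_pow]; norm_num
    rw [this]
    have := Real.log_two_lt_d9
    linarith
  refine ⟨by linarith, ?_⟩
  rw [h4]
  linarith

theorem sumP : ∃ X0 : ℝ, 3 ≤ X0 ∧ ∀ X : ℝ, X0 ≤ X → ∀ u : ℝ, |u| ≤ 2 * X → ∀ N : ℕ, (N : ℝ) ≤ 4 * X →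
    ‖∑ n ∈ Icc 1 N, cit u n - N * cit u N / (1 + Complex.I * (u : ℂ))‖ ≤ X ^ (7 / 8 : ℝ) := by
  obtain ⟨X0, hX0, hlarge⟩ := a1_large
  refine ⟨X0, hX0, fun X hX u hu N hN => ?_⟩
  obtain ⟨hZ4, hZl⟩ := hlarge X hX
  have hX3 : 3 ≤ X := hX0.trans hX
  have hXp : 0 < X := by linarith
  set Z : ℝ := X ^ (1 / 40 : ℝ) with hZ
  have hZ0 : 0 < Z := by linarith
  have hZ1 : 1 ≤ Z := by linarith
  have hX40 : X = Z ^ 40 := by
    rw [hZ, ← Real.rpow_natCast, ← Real.rpow_mul hXp.le]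
    norm_num
  have hX35 : X ^ (7 / 8 : ℝ) = Z ^ 35 := by
    rw [hZ, ← Real.rpow_natCast, ← Real.rpow_mul hXp.le]
    norm_num
  rw [hX35]
  rcases Nat.eq_zero_or_pos N with h0 | h0
  · subst h0
    simp only [show Icc 1 0 = (∅ : Finset ℕ) from rfl, Finset.sum_empty, Nat.cast_zero, zero_mul, zero_div,
      sub_zero, norm_zero]
    positivity
  have hNr : (1 : ℝ) ≤ N := by exact_mod_cast h0
  have hlogN : Real.log N ≤ Real.log (4 * X) := Real.log_le_log (by linarith) hN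
  have hlogN0 : 0 ≤ Real.log N := Real.log_nonneg hNr
  have hlog0 : 0 ≤ Real.log (4 * X) := hlogN0.trans hlogN
  by_cases hcase : |u| ≤ Z ^ 32
  · refine (a1_em u N).trans ?_
    have h1 : |u| * (1 + Real.log N) ≤ Z ^ 32 * (1 + Real.log (4 * X)) :=
      mul_le_mul hcase (by linarith) (by linarith) (by positivity)
    have h2 : Z ^ 32 * (1 + Real.log (4 * X)) + 2 ≤ Z ^ 32 * Z := by
      have h3 : (1 : ℝ) ≤ Z ^ 32 := one_le_pow₀ hZ1
      nlinarith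
    have h4 : Z ^ 32 * Z ≤ Z ^ 35 := by
      rw [← pow_succ]; exact pow_le_pow_right₀ hZ1 (by norm_num)
    linarith
  · rw [not_le] at hcase
    have hu0 : 0 < |u| := lt_trans (by positivity) hcase
    have h1 := a1_dyadic hZ4 hcase.le (by rw [← hX40]; exact hu) N (by rw [← hX40]; exact hN)
    have h2 : ‖(N : ℂ) * cit u N / (1 + Complex.I * (u : ℂ))‖ ≤ 4 * Z ^ 8 := by
      rw [norm_div, norm_mul, norm_cit, mul_one, Complex.norm_natCast]
      have h3 : |u| ≤ ‖(1 + Complex.I * (u : ℂ))‖ := by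
        have := Complex.abs_im_le_norm (1 + Complex.I * (u : ℂ))
        simpa using this
      calc (N : ℝ) / ‖(1 + Complex.I * (u : ℂ))‖ ≤ (4 * Z ^ 40) / Z ^ 32 := by
            refine div_le_div₀ (by positivity) (by rw [← hX40]; exact hN) (by positivity) (hcase.le.trans h3)
        _ = 4 * Z ^ 8 := by field_simp
    have h3 : ((Nat.log 2 N : ℕ) : ℝ) ≤ 2 * Real.log (4 * X) := by
      have h4 : (2 : ℝ) ^ (Nat.log 2 N) ≤ N := by exact_mod_cast Nat.pow_log_le_self 2 (by omega)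
      have h5 := Real.log_le_log (by positivity) h4
      rw [Real.log_pow] at h5
      have h6 : (1 / 2 : ℝ) ≤ Real.log 2 := by
        have := Real.log_two_gt_d9
        linarith
      have h7 : (0 : ℝ) ≤ ((Nat.log 2 N : ℕ) : ℝ) := Nat.cast_nonneg _
      nlinarith
    have h4 : 68 * Z ^ 34 * ((Nat.log 2 N : ℕ) : ℝ) ≤ 68 * Z ^ 34 * (2 * Real.log (4 * X)) :=
      mul_le_mul_of_nonneg_left h3 (by positivity)
    have h5 : Z ^ 28 ≤ Z ^ 34 := pow_le_pow_right₀ hZ1 (by norm_num)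
    have h6 : Z ^ 8 ≤ Z ^ 34 := pow_le_pow_right₀ hZ1 (by norm_num)
    have h7 : Z ^ 34 * (140 * (1 + Real.log (4 * X)) + 10) ≤ Z ^ 34 * Z :=
      mul_le_mul_of_nonneg_left hZl (by positivity)
    have h8 : Z ^ 34 * Z = Z ^ 35 := by ring
    have h9 : 0 ≤ Z ^ 34 * Real.log (4 * X) := by positivity
    refine (norm_sub_le _ _).trans ?_
    nlinarith

end Pool.Agent.Lib.MP_9fe581_an.EXC
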