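import Pool.Agent.Lib.MP_9fe581_an.EXC.Dual

set_option autoImplicit false

/-!
# The inequality of Turán and Kubilius over a sparse set of frequencies
-/

namespace Pool.Agent.Lib.MP_9fe581_an.EXC

open Finset

/-- the quadratic form is bounded by the absolute values of the Gram matrix -/
theorem a4_gram {ι : Type} (I : Finset ι) (A : Finset ℕ) (w : ℕ → ℝ) (φ : ι → ℕ → ℂ)
    (Γ : ι → ι → ℝ)
    (h : ∀ i ∈ I, ∀ j ∈ I, ‖∑ n ∈ A, (w n : ℂ) * (φ i n * (starRingEnd ℂ) (φ j n))‖ ≤ Γ i j)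
    (c : ι → ℂ) :
    ∑ n ∈ A, w n * ‖∑ i ∈ I, c i * φ i n‖ ^ 2 ≤ ∑ i ∈ I, ∑ j ∈ I, ‖c i‖ * ‖c j‖ * Γ i j := by
  have h1 : ((∑ n ∈ A, w n * ‖∑ i ∈ I, c i * φ i n‖ ^ 2 : ℝ) : ℂ) =
      ∑ i ∈ I, ∑ j ∈ I, c i * (starRingEnd ℂ) (c j) *
        ∑ n ∈ A, (w n : ℂ) * (φ i n * (starRingEnd ℂ) (φ j n)) := by
    have h2 : ∀ n, ((w n * ‖∑ i ∈ I, c i * φ i n‖ ^ 2 : ℝ) : ℂ) =
        ∑ i ∈ I, ∑ j ∈ I, c i * (starRingEnd ℂ) (c j) *
          ((w n : ℂ) * (φ i n * (starRingEnd ℂ) (φ j n))) := by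
      intro n
      have h3 : ((‖∑ i ∈ I, c i * φ i n‖ ^ 2 : ℝ) : ℂ) =
          (∑ i ∈ I, c i * φ i n) * (starRingEnd ℂ) (∑ i ∈ I, c i * φ i n) := by
        rw [Complex.mul_conj, Complex.normSq_eq_norm_sq]
      rw [Complex.ofReal_mul, h3, map_sum, sum_mul_sum, mul_sum]
      refine sum_congr rfl fun i _ => ?_
      rw [mul_sum]
      refine sum_congr rfl fun j _ => ?_
      rw [map_mul]
      ring
    rw [Complex.ofReal_sum, sum_congr rfl fun n _ => h2 n, sum_comm]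
    refine sum_congr rfl fun i _ => ?_
    rw [sum_comm]
    refine sum_congr rfl fun j _ => ?_
    rw [mul_sum]
  have h4 : ∑ n ∈ A, w n * ‖∑ i ∈ I, c i * φ i n‖ ^ 2 ≤
      ‖((∑ n ∈ A, w n * ‖∑ i ∈ I, c i * φ i n‖ ^ 2 : ℝ) : ℂ)‖ := by
    rw [Complex.norm_real]
    exact le_abs_self _
  refine h4.trans ?_
  rw [h1]
  refine (norm_sum_le _ _).trans (sum_le_sum fun i hi => ?_)
  refine (norm_sum_le _ _).trans (sum_le_sum fun j hj => ?_)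
  rw [norm_mul, norm_mul, RCLike.norm_conj]
  exact mul_le_mul_of_nonneg_left (h i hi j hj) (by positivity)

/-- the smoothed sum over the multiples of `d` -/
theorem a4_mult (u : ℝ) {d : ℕ} (hd : 0 < d) {v : ℝ} (hv : 0 < v) :
    ∑ n ∈ Icc 1 ⌊2 * v⌋₊, ((2 - (n : ℝ) / v : ℝ) : ℂ) * (if d ∣ n then cit u n else 0) =
      cit u d * WW u (v / d) := by
  have hdr : (0 : ℝ) < d := by exact_mod_cast hd
  have h1 : ∀ n ∈ Icc 1 ⌊2 * v⌋₊, ((2 - (n : ℝ) / v : ℝ) : ℂ) * (if d ∣ n then cit u n else 0) =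
      if d ∣ n then ((2 - (n : ℝ) / v : ℝ) : ℂ) * cit u n else 0 := by
    intro n _
    rw [mul_ite, mul_zero]
  rw [sum_congr rfl h1, a0_mult d hd ⌊2 * v⌋₊ fun n => ((2 - (n : ℝ) / v : ℝ) : ℂ) * cit u n]
  unfold WW
  rw [mul_sum]
  have h2 : ⌊2 * (v / d)⌋₊ = ⌊2 * v⌋₊ / d := by
    rw [← Nat.floor_div_natCast]
    congr 1
    ring
  rw [h2]
  refine sum_congr rfl fun m hm => ?_
  rw [mem_Icc] at hm
  have hmr : (0 : ℝ) < m := by exact_mod_cast hm.1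
  have h3 : (((d * m : ℕ) : ℝ)) / v = (m : ℝ) / (v / d) := by
    push_cast
    field_simp
  rw [h3, Nat.cast_mul, cit_mul u hdr hmr]
  ring

/-- `d` times the sum over the multiples of `d` does not depend on `d` -/
theorem a4_G {B : Finset ℝ} {Y0 Y1 ρ : ℝ} (hK : Ker B Y0 Y1 ρ) {t t' : ℝ} (ht : t ∈ B)
    (ht' : t' ∈ B) {d : ℕ} (hd : 0 < d) {v : ℝ} (hv : 0 < v) (hv0 : Y0 * d ≤ v) (hv1 : v ≤ Y1) :
    ‖(d : ℂ) * ∑ n ∈ Icc 1 ⌊2 * v⌋₊, ((2 - (n : ℝ) / v : ℝ) : ℂ) *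
        (if d ∣ n then cit (t - t') n else 0) - v * cit (t - t') v * kap (t - t')‖ ≤ ρ * v := by
  have hdr : (0 : ℝ) < d := by exact_mod_cast hd
  have hd1 : (1 : ℝ) ≤ d := by exact_mod_cast hd
  rw [a4_mult _ hd hv]
  have h1 := hK t ht t' ht' (v / d) ((le_div_iff₀ hdr).2 hv0)
    ((div_le_self hv.le hd1).trans hv1)
  have h2 : cit (t - t') v = cit (t - t') d * cit (t - t') (v / d) := by
    rw [← cit_mul _ hdr (div_pos hv hdr)]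
    congr 1
    field_simp
  have h3 : (d : ℂ) * (cit (t - t') d * WW (t - t') (v / d)) - v * cit (t - t') v * kap (t - t') =
      ((d : ℂ) * cit (t - t') d) * (WW (t - t') (v / d) -
        ((v / d : ℝ) : ℂ) * cit (t - t') ((v / d : ℝ)) * kap (t - t')) := by
    rw [h2]
    have h4 : (d : ℂ) ≠ 0 := by exact_mod_cast hdr.ne'
    push_cast
    field_simp
  rw [h3, norm_mul, norm_mul, norm_cit, mul_one, Complex.norm_natCast]
  calc (d : ℝ) * _ ≤ (d : ℝ) * (ρ * (v / d)) := mul_le_mul_of_nonneg_left h1 hdr.le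
    _ = ρ * v := by field_simp

/-- the coefficient -/
noncomputable def a4b (p n : ℕ) : ℂ := (if p ∣ n then (p : ℂ) else 0) - 1

/-- the functions -/
noncomputable def a4p (i : ℕ × ℝ) (n : ℕ) : ℂ :=
  ((Real.sqrt i.1 : ℝ) : ℂ)⁻¹ * (a4b i.1 n * cit (-i.2) n)

theorem a4_conj (i j : ℕ × ℝ) (n : ℕ) : a4p i n * (starRingEnd ℂ) (a4p j n) =
    (((Real.sqrt i.1 : ℝ) : ℂ)⁻¹ * ((Real.sqrt j.1 : ℝ) : ℂ)⁻¹) *
      (a4b i.1 n * a4b j.1 n * cit (j.2 - i.2) n) := by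
  have h1 : (starRingEnd ℂ) (a4b j.1 n) = a4b j.1 n := by
    unfold a4b
    rw [map_sub, map_one]
    split_ifs
    · rw [Complex.conj_natCast]
    · rw [map_zero]
  have h2 : (starRingEnd ℂ) (cit (-j.2) n) = cit j.2 n := by
    rw [← cit_neg, neg_neg]
  have h3 : cit (j.2 - i.2) n = cit (-i.2) n * cit j.2 n := by
    rw [← cit_add]
    congr 1
    ring
  unfold a4p
  rw [map_mul, map_mul, map_inv₀, Complex.conj_ofReal, h1, h2, h3]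
  ring

theorem a4_prod_ne {p q n : ℕ} (hp : p.Prime) (hq : q.Prime) (hpq : p ≠ q) (x : ℂ) :
    a4b p n * a4b q n * x = ((p * q : ℕ) : ℂ) * (if p * q ∣ n then x else 0) -
      (p : ℂ) * (if p ∣ n then x else 0) - (q : ℂ) * (if q ∣ n then x else 0) +
      ((1 : ℕ) : ℂ) * (if 1 ∣ n then x else 0) := by
  have h1 : (p * q ∣ n) ↔ (p ∣ n ∧ q ∣ n) := by
    constructor
    · intro h
      exact ⟨(Dvd.intro q rfl).trans h, (Dvd.intro_left p rfl).trans h⟩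
    · rintro ⟨h2, h3⟩
      exact Nat.Coprime.mul_dvd_of_dvd_of_dvd ((Nat.coprime_primes hp hq).2 hpq) h2 h3
  unfold a4b
  rw [if_pos (one_dvd n)]
  by_cases h2 : p ∣ n
  · by_cases h3 : q ∣ n
    · rw [if_pos h2, if_pos h3, if_pos (h1.2 ⟨h2, h3⟩), if_pos h2, if_pos h3]
      push_cast
      ring
    · rw [if_pos h2, if_neg h3, if_neg (fun h => h3 (h1.1 h).2), if_pos h2, if_neg h3]
      push_cast
      ring
  · by_cases h3 : q ∣ n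
    · rw [if_neg h2, if_pos h3, if_neg (fun h => h2 (h1.1 h).1), if_neg h2, if_pos h3]
      push_cast
      ring
    · rw [if_neg h2, if_neg h3, if_neg (fun h => h2 (h1.1 h).1), if_neg h2, if_neg h3]
      push_cast
      ring

theorem a4_prod_eq (p n : ℕ) (x : ℂ) :
    a4b p n * a4b p n * x = ((p : ℂ) - 2) * ((p : ℂ) * (if p ∣ n then x else 0)) +
      ((1 : ℕ) : ℂ) * (if 1 ∣ n then x else 0) := by
  unfold a4b
  rw [if_pos (one_dvd n)]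
  by_cases h2 : p ∣ n
  · rw [if_pos h2, if_pos h2]
    push_cast
    ring
  · rw [if_neg h2, if_neg h2]
    push_cast
    ring

/-- the Gram matrix -/
noncomputable def a4Γ (v ρ : ℝ) (i j : ℕ × ℝ) : ℝ :=
  (if i.1 = j.1 then v * (4 / (1 + (i.2 - j.2) ^ 2) + ρ) else 0) +
    4 * ρ * v * ((Real.sqrt i.1)⁻¹ * (Real.sqrt j.1)⁻¹)

theorem a4_gram_le {B : Finset ℝ} {Y0 Y1 ρ : ℝ} (hY0 : 1 ≤ Y0) (hρ : 0 ≤ ρ)
    (hK : Ker B Y0 Y1 ρ) (P : Finset ℕ) (hP : ∀ p ∈ P, p.Prime) {P0 : ℝ} (hP0 : ∀ p ∈ P, (p : ℝ) ≤ P0)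
    {v : ℝ} (hv : Y0 * P0 ^ 2 ≤ v) (hv0 : Y0 ≤ v) (hv1 : v ≤ Y1) :
    ∀ i ∈ P ×ˢ B, ∀ j ∈ P ×ˢ B, ‖∑ n ∈ Icc 1 ⌊2 * v⌋₊, (((2 - (n : ℝ) / v : ℝ)) : ℂ) *
      (a4p i n * (starRingEnd ℂ) (a4p j n))‖ ≤ a4Γ v ρ i j := by
  have hvpos : 0 < v := by linarith
  have hY0' : 0 ≤ Y0 := by linarith
  rintro ⟨p, t⟩ hi ⟨q, s⟩ hj
  rw [mem_product] at hi hj
  obtain ⟨hpP, htB⟩ := hi
  obtain ⟨hqP, hsB⟩ := hj
  have hp := hP p hpP
  have hq := hP q hqP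
  have hp0 : (0 : ℝ) < p := by exact_mod_cast hp.pos
  have hq0 : (0 : ℝ) < q := by exact_mod_cast hq.pos
  have hp2 : (2 : ℝ) ≤ p := by exact_mod_cast hp.two_le
  have hq2 : (2 : ℝ) ≤ q := by exact_mod_cast hq.two_le
  have hpP0 := hP0 p hpP
  have hqP0 := hP0 q hqP
  -- the four sums
  obtain ⟨G, hG⟩ : ∃ G : ℕ → ℂ, ∀ d, G d = (d : ℂ) * ∑ n ∈ Icc 1 ⌊2 * v⌋₊,
      ((2 - (n : ℝ) / v : ℝ) : ℂ) * (if d ∣ n then cit (s - t) n else 0) := ⟨_, fun _ => rfl⟩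
  set m : ℂ := v * cit (s - t) v * kap (s - t) with hm
  have hGd : ∀ d : ℕ, 0 < d → (d : ℝ) ≤ P0 ^ 2 → ‖G d - m‖ ≤ ρ * v := by
    intro d hd hdP
    rw [hG]
    exact a4_G hK hsB htB hd hvpos ((mul_le_mul_of_nonneg_left hdP hY0').trans hv) hv1
  have hP1 : 1 ≤ P0 := by linarith
  have hG1 : ‖G 1 - m‖ ≤ ρ * v := hGd 1 one_pos (by
    rw [Nat.cast_one]
    exact one_le_pow₀ hP1)
  have hGp : ‖G p - m‖ ≤ ρ * v := hGd p hp.pos (by nlinarith)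
  have hGq : ‖G q - m‖ ≤ ρ * v := hGd q hq.pos (by nlinarith)
  have hGpq : ‖G (p * q) - m‖ ≤ ρ * v := hGd (p * q) (Nat.mul_pos hp.pos hq.pos) (by
    push_cast
    nlinarith)
  have hmn : ‖m‖ ≤ v * (4 / (1 + (t - s) ^ 2)) := by
    rw [hm, norm_mul, norm_mul, norm_cit, mul_one, Complex.norm_real, Real.norm_eq_abs,
      abs_of_pos hvpos]
    refine mul_le_mul_of_nonneg_left ?_ hvpos.le
    have h1 := norm_kap (s - t)
    have h2 : (s - t) ^ 2 = (t - s) ^ 2 := by ring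
    rw [h2] at h1
    exact h1
  have hsum : ∑ n ∈ Icc 1 ⌊2 * v⌋₊, (((2 - (n : ℝ) / v : ℝ)) : ℂ) *
      (a4p (p, t) n * (starRingEnd ℂ) (a4p (q, s) n)) =
      (((Real.sqrt p : ℝ) : ℂ)⁻¹ * ((Real.sqrt q : ℝ) : ℂ)⁻¹) *
        ∑ n ∈ Icc 1 ⌊2 * v⌋₊, (((2 - (n : ℝ) / v : ℝ)) : ℂ) *
          (a4b p n * a4b q n * cit (s - t) n) := by
    rw [mul_sum]
    refine sum_congr rfl fun n _ => ?_
    rw [a4_conj]
    ring
  have hsn : ‖((Real.sqrt p : ℝ) : ℂ)⁻¹ * ((Real.sqrt q : ℝ) : ℂ)⁻¹‖ =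
      (Real.sqrt p)⁻¹ * (Real.sqrt q)⁻¹ := by
    rw [norm_mul, norm_inv, norm_inv, Complex.norm_real, Complex.norm_real, Real.norm_eq_abs,
      Real.norm_eq_abs, abs_of_nonneg (Real.sqrt_nonneg _), abs_of_nonneg (Real.sqrt_nonneg _)]
  have hs0 : 0 ≤ (Real.sqrt p)⁻¹ * (Real.sqrt q)⁻¹ := by positivity
  have hρv : 0 ≤ ρ * v := mul_nonneg hρ hvpos.le
  rw [hsum, norm_mul, hsn]
  unfold a4Γ
  simp only
  by_cases hpq : p = q
  · subst hpq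
    rw [if_pos rfl]
    have h1 : ∑ n ∈ Icc 1 ⌊2 * v⌋₊, (((2 - (n : ℝ) / v : ℝ)) : ℂ) *
          (a4b p n * a4b p n * cit (s - t) n) = ((p : ℂ) - 2) * G p + G 1 := by
      rw [hG, hG, mul_sum, mul_sum, mul_sum, ← sum_add_distrib]
      refine sum_congr rfl fun n _ => ?_
      rw [a4_prod_eq]
      push_cast
      ring
    have h2 : ((p : ℂ) - 2) * G p + G 1 =
        ((p : ℂ) - 2) * (G p - m) + (G 1 - m) + ((p : ℂ) - 1) * m := by ring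
    have h3 : ‖(p : ℂ) - 2‖ = p - 2 := by
      have : (p : ℂ) - 2 = (((p : ℝ) - 2 : ℝ) : ℂ) := by push_cast; ring
      rw [this, Complex.norm_real, Real.norm_eq_abs, abs_of_nonneg (by linarith)]
    have h4 : ‖(p : ℂ) - 1‖ = p - 1 := by
      have : (p : ℂ) - 1 = (((p : ℝ) - 1 : ℝ) : ℂ) := by push_cast; ring
      rw [this, Complex.norm_real, Real.norm_eq_abs, abs_of_nonneg (by linarith)]
    have h5 : ‖((p : ℂ) - 2) * G p + G 1‖ ≤ p * (v * (4 / (1 + (t - s) ^ 2) + ρ)) := by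
      rw [h2]
      refine (norm_add_le _ _).trans ?_
      have h6 := norm_add_le (((p : ℂ) - 2) * (G p - m)) (G 1 - m)
      rw [norm_mul, h3] at h6
      rw [norm_mul, h4]
      have h7 : ((p : ℝ) - 2) * ‖G p - m‖ ≤ (p - 2) * (ρ * v) :=
        mul_le_mul_of_nonneg_left hGp (by linarith)
      have h8 : ((p : ℝ) - 1) * ‖m‖ ≤ p * (v * (4 / (1 + (t - s) ^ 2))) := by
        have h9 : 0 ≤ ‖m‖ := norm_nonneg m
        calc ((p : ℝ) - 1) * ‖m‖ ≤ p * ‖m‖ := mul_le_mul_of_nonneg_right (by linarith) h9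
          _ ≤ _ := mul_le_mul_of_nonneg_left hmn hp0.le
      have h9 : (p : ℝ) * (v * (4 / (1 + (t - s) ^ 2) + ρ)) =
          p * (v * (4 / (1 + (t - s) ^ 2))) + p * (ρ * v) := by ring
      rw [h9]
      nlinarith
    have h6 : (Real.sqrt p)⁻¹ * (Real.sqrt p)⁻¹ * p = 1 := by
      have h7 : Real.sqrt p * Real.sqrt p = p := Real.mul_self_sqrt hp0.le
      have h8 : 0 < Real.sqrt p := Real.sqrt_pos.2 hp0
      field_simp
      rw [sq, h7]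
    rw [h1]
    calc (Real.sqrt p)⁻¹ * (Real.sqrt p)⁻¹ * ‖((p : ℂ) - 2) * G p + G 1‖
        ≤ (Real.sqrt p)⁻¹ * (Real.sqrt p)⁻¹ * (p * (v * (4 / (1 + (t - s) ^ 2) + ρ))) :=
          mul_le_mul_of_nonneg_left h5 hs0
      _ = v * (4 / (1 + (t - s) ^ 2) + ρ) := by
          rw [← mul_assoc, h6, one_mul]
      _ ≤ _ := by
          have : 0 ≤ 4 * ρ * v * ((Real.sqrt p)⁻¹ * (Real.sqrt p)⁻¹) := by positivity
          linarith
  · rw [if_neg hpq, zero_add]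
    have h1 : ∑ n ∈ Icc 1 ⌊2 * v⌋₊, (((2 - (n : ℝ) / v : ℝ)) : ℂ) *
          (a4b p n * a4b q n * cit (s - t) n) = G (p * q) - G p - G q + G 1 := by
      rw [hG, hG, hG, hG, mul_sum, mul_sum, mul_sum, mul_sum, ← sum_sub_distrib,
        ← sum_sub_distrib, ← sum_add_distrib]
      refine sum_congr rfl fun n _ => ?_
      rw [a4_prod_ne hp hq hpq]
      ring
    have h2 : G (p * q) - G p - G q + G 1 =
        (G (p * q) - m) - (G p - m) - (G q - m) + (G 1 - m) := by ring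
    have h3 : ‖G (p * q) - G p - G q + G 1‖ ≤ 4 * ρ * v := by
      rw [h2]
      have h4 := norm_add_le ((G (p * q) - m) - (G p - m) - (G q - m)) (G 1 - m)
      have h5 := norm_sub_le ((G (p * q) - m) - (G p - m)) (G q - m)
      have h6 := norm_sub_le (G (p * q) - m) (G p - m)
      linarith
    rw [h1]
    calc (Real.sqrt p)⁻¹ * (Real.sqrt q)⁻¹ * ‖G (p * q) - G p - G q + G 1‖
        ≤ (Real.sqrt p)⁻¹ * (Real.sqrt q)⁻¹ * (4 * ρ * v) := mul_le_mul_of_nonneg_left h3 hs0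
      _ = _ := by ring

/-- the sum of the Gram matrix -/
theorem a4_total {B : Finset ℝ} (hB : Sep B) {ρ : ℝ} (hρ : 0 ≤ ρ) (P : Finset ℕ)
    (hP : ∀ p ∈ P, p.Prime) (hBρ : B.card * ρ * (1 + ∑ p ∈ P, 1 / (p : ℝ)) ≤ 1 / 4)
    {v : ℝ} (hv : 0 ≤ v) (x : ℕ × ℝ → ℝ) :
    ∑ i ∈ P ×ˢ B, ∑ j ∈ P ×ˢ B, x i * x j * a4Γ v ρ i j ≤ 30 * v * ∑ i ∈ P ×ˢ B, x i ^ 2 := by
  have h1 : ∑ i ∈ P ×ˢ B, ∑ j ∈ P ×ˢ B, x i * x j * a4Γ v ρ i j =
      ∑ p ∈ P, ∑ t ∈ B, ∑ s ∈ B, x (p, t) * x (p, s) * (v * (4 / (1 + (t - s) ^ 2) + ρ)) +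
        4 * ρ * v * (∑ i ∈ P ×ˢ B, x i * (Real.sqrt i.1)⁻¹) ^ 2 := by
    have h2 : ∀ i ∈ P ×ˢ B, ∑ j ∈ P ×ˢ B, x i * x j * a4Γ v ρ i j =
        ∑ s ∈ B, x i * x (i.1, s) * (v * (4 / (1 + (i.2 - s) ^ 2) + ρ)) +
          4 * ρ * v * (x i * (Real.sqrt i.1)⁻¹) * ∑ j ∈ P ×ˢ B, x j * (Real.sqrt j.1)⁻¹ := by
      intro i hi
      have h3 : ∀ j : ℕ × ℝ, x i * x j * a4Γ v ρ i j =
          (if i.1 = j.1 then x i * x j * (v * (4 / (1 + (i.2 - j.2) ^ 2) + ρ)) else 0) +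
            4 * ρ * v * (x i * (Real.sqrt i.1)⁻¹) * (x j * (Real.sqrt j.1)⁻¹) := by
        intro j
        unfold a4Γ
        split_ifs
        · ring
        · ring
      rw [sum_congr rfl fun j _ => h3 j, sum_add_distrib, ← mul_sum]
      congr 1
      rw [sum_product]
      rw [sum_eq_single i.1]
      · refine sum_congr rfl fun s _ => ?_
        rw [if_pos rfl]
      · intro p _ hp
        refine sum_eq_zero fun s _ => ?_
        rw [if_neg (fun h => hp h.symm)]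
      · intro h
        exact absurd (mem_product.1 hi).1 h
    rw [sum_congr rfl h2, sum_add_distrib, sum_product]
    congr 1
    rw [← sum_mul, ← mul_sum, sq]
    ring
  have h2 : ∀ p ∈ P, ∑ t ∈ B, ∑ s ∈ B, x (p, t) * x (p, s) *
      (v * (4 / (1 + (t - s) ^ 2) + ρ)) ≤ (24 + B.card * ρ) * v * ∑ t ∈ B, x (p, t) ^ 2 := by
    intro p _
    have h3 : ∑ t ∈ B, ∑ s ∈ B, x (p, t) * x (p, s) * (v * (4 / (1 + (t - s) ^ 2) + ρ)) ≤
        ∑ t ∈ B, ∑ s ∈ B, (x (p, t) ^ 2 + x (p, s) ^ 2) / 2 *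
          (v * (4 / (1 + (t - s) ^ 2) + ρ)) := by
      refine sum_le_sum fun t _ => sum_le_sum fun s _ => ?_
      refine mul_le_mul_of_nonneg_right ?_ (by positivity)
      nlinarith [sq_nonneg (x (p, t) - x (p, s))]
    have h4 : ∑ t ∈ B, ∑ s ∈ B, (x (p, t) ^ 2 + x (p, s) ^ 2) / 2 *
          (v * (4 / (1 + (t - s) ^ 2) + ρ)) =
        ∑ t ∈ B, ∑ s ∈ B, x (p, t) ^ 2 * (v * (4 / (1 + (t - s) ^ 2) + ρ)) := by
      have h5 : ∑ t ∈ B, ∑ s ∈ B, x (p, s) ^ 2 * (v * (4 / (1 + (t - s) ^ 2) + ρ)) =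
          ∑ t ∈ B, ∑ s ∈ B, x (p, t) ^ 2 * (v * (4 / (1 + (t - s) ^ 2) + ρ)) := by
        rw [sum_comm]
        refine sum_congr rfl fun t _ => sum_congr rfl fun s _ => ?_
        have : (s - t) ^ 2 = (t - s) ^ 2 := by ring
        rw [this]
      have h6 : ∑ t ∈ B, ∑ s ∈ B, (x (p, t) ^ 2 + x (p, s) ^ 2) / 2 *
          (v * (4 / (1 + (t - s) ^ 2) + ρ)) =
          (∑ t ∈ B, ∑ s ∈ B, x (p, t) ^ 2 * (v * (4 / (1 + (t - s) ^ 2) + ρ)) +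
            ∑ t ∈ B, ∑ s ∈ B, x (p, s) ^ 2 * (v * (4 / (1 + (t - s) ^ 2) + ρ))) / 2 := by
        rw [← sum_add_distrib, sum_div]
        refine sum_congr rfl fun t _ => ?_
        rw [← sum_add_distrib, sum_div]
        refine sum_congr rfl fun s _ => ?_
        ring
      rw [h6, h5]
      ring
    rw [h4] at h3
    refine h3.trans ?_
    rw [mul_sum]
    refine sum_le_sum fun t _ => ?_
    have h5 := spaced hB t
    have h6 : ∑ s ∈ B, x (p, t) ^ 2 * (v * (4 / (1 + (t - s) ^ 2) + ρ)) =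
        x (p, t) ^ 2 * v * (4 * ∑ s ∈ B, 1 / (1 + (t - s) ^ 2) + B.card * ρ) := by
      have h7 : (B.card : ℝ) * ρ = ∑ _s ∈ B, ρ := by rw [sum_const, nsmul_eq_mul]
      rw [h7, mul_sum, ← sum_add_distrib, mul_sum]
      refine sum_congr rfl fun s _ => ?_
      ring
    rw [h6]
    have h7 : 0 ≤ x (p, t) ^ 2 * v := by positivity
    calc x (p, t) ^ 2 * v * (4 * ∑ s ∈ B, 1 / (1 + (t - s) ^ 2) + B.card * ρ)
        ≤ x (p, t) ^ 2 * v * (24 + B.card * ρ) :=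
          mul_le_mul_of_nonneg_left (by linarith) h7
      _ = _ := by ring
  have h3 : (∑ i ∈ P ×ˢ B, x i * (Real.sqrt i.1)⁻¹) ^ 2 ≤
      (∑ i ∈ P ×ˢ B, x i ^ 2) * (B.card * ∑ p ∈ P, 1 / (p : ℝ)) := by
    refine (sum_mul_sq_le_sq_mul_sq (P ×ˢ B) x fun i => (Real.sqrt i.1)⁻¹).trans ?_
    refine mul_le_mul_of_nonneg_left (le_of_eq ?_) (sum_nonneg fun i _ => sq_nonneg _)
    rw [sum_product, mul_sum]
    refine sum_congr rfl fun p hp => ?_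
    have hp0 : (0 : ℝ) < p := by exact_mod_cast (hP p hp).pos
    have hc : ∀ y ∈ B, ((Real.sqrt ((p, y) : ℕ × ℝ).1)⁻¹ : ℝ) ^ 2 = 1 / (p : ℝ) := by
      intro y _
      rw [inv_pow, Real.sq_sqrt hp0.le, one_div]
    rw [sum_congr rfl hc, sum_const, nsmul_eq_mul]
  have h4 : 0 ≤ ∑ i ∈ P ×ˢ B, x i ^ 2 := sum_nonneg fun i _ => sq_nonneg _
  have h5 : 0 ≤ ∑ p ∈ P, 1 / (p : ℝ) := sum_nonneg fun p _ => by positivity
  rw [h1]
  have h6 : ∑ p ∈ P, ∑ t ∈ B, ∑ s ∈ B, x (p, t) * x (p, s) *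
      (v * (4 / (1 + (t - s) ^ 2) + ρ)) ≤ (24 + B.card * ρ) * v * ∑ i ∈ P ×ˢ B, x i ^ 2 := by
    rw [sum_product, mul_sum]
    exact sum_le_sum h2
  have h7 : 4 * ρ * v * (∑ i ∈ P ×ˢ B, x i * (Real.sqrt i.1)⁻¹) ^ 2 ≤
      4 * ρ * v * ((∑ i ∈ P ×ˢ B, x i ^ 2) * (B.card * ∑ p ∈ P, 1 / (p : ℝ))) :=
    mul_le_mul_of_nonneg_left h3 (by positivity)
  set S := ∑ i ∈ P ×ˢ B, x i ^ 2
  set V := ∑ p ∈ P, 1 / (p : ℝ)
  have h8 : 0 ≤ v * S := mul_nonneg hv h4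
  have h9 : (24 + B.card * ρ) * v * S + 4 * ρ * v * (S * (B.card * V)) =
      (24 + B.card * ρ + 4 * (B.card * ρ * V)) * (v * S) := by ring
  have h10 : 0 ≤ (B.card : ℝ) * ρ := by positivity
  have h11 : 24 + B.card * ρ + 4 * (B.card * ρ * V) ≤ 30 := by nlinarith
  calc _ ≤ (24 + B.card * ρ) * v * S + 4 * ρ * v * (S * (B.card * V)) := add_le_add h6 h7
    _ = (24 + B.card * ρ + 4 * (B.card * ρ * V)) * (v * S) := h9
    _ ≤ 30 * (v * S) := mul_le_mul_of_nonneg_right h11 h8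
    _ = 30 * v * S := by ring

/-- **Turán–Kubilius over a sparse set of frequencies.** -/
theorem tk {B : Finset ℝ} (hB : Sep B) {Y0 Y1 ρ : ℝ} (hY0 : 1 ≤ Y0) (hρ : 0 ≤ ρ)
    (hK : Ker B Y0 Y1 ρ) (P : Finset ℕ) (hP : ∀ p ∈ P, p.Prime) {P0 : ℝ} (hP0 : ∀ p ∈ P, (p : ℝ) ≤ P0)
    (hBρ : B.card * ρ * (1 + ∑ p ∈ P, 1 / (p : ℝ)) ≤ 1 / 4)
    {v : ℝ} (hv : Y0 * P0 ^ 2 ≤ v) (hv0 : Y0 ≤ v) (hv1 : v ≤ Y1) (a : ℕ → ℂ) :
    ∑ p ∈ P, (1 / (p : ℝ)) * ∑ t ∈ B,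
        ‖∑ n ∈ Icc 1 ⌊v⌋₊, ((if p ∣ n then (p : ℂ) else 0) - 1) * (a n * cit (-t) n)‖ ^ 2 ≤
        30 * v * ∑ n ∈ Icc 1 ⌊v⌋₊, ‖a n‖ ^ 2 := by
  have hvpos : 0 < v := by linarith
  have h1 := dual (P ×ˢ B) ⌊v⌋₊ ⌊2 * v⌋₊ (Nat.floor_le_floor (by linarith))
    (fun n => 2 - (n : ℝ) / v) (fun n hn => by
      rw [mem_Icc] at hn
      have h2 : (n : ℝ) ≤ 2 * v := (Nat.le_floor_iff (by positivity)).1 hn.2
      have h3 : (n : ℝ) / v ≤ 2 := (div_le_iff₀ hvpos).2 h2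
      linarith) (fun n hn => by
      rw [mem_Icc] at hn
      have h2 : (n : ℝ) ≤ v := (Nat.le_floor_iff hvpos.le).1 hn.2
      have h3 : (n : ℝ) / v ≤ 1 := (div_le_one hvpos).2 h2
      linarith) a4p (30 * v) (by positivity) (fun c => by
      refine (a4_gram (P ×ˢ B) _ (fun n => 2 - (n : ℝ) / v) a4p (a4Γ v ρ)
        (a4_gram_le hY0 hρ hK P hP hP0 hv hv0 hv1) c).trans ?_
      exact a4_total hB hρ P hP hBρ hvpos.le fun i => ‖c i‖) a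
  refine le_trans (le_of_eq ?_) h1
  rw [sum_product]
  refine sum_congr rfl fun p hp => ?_
  rw [mul_sum]
  refine sum_congr rfl fun t _ => ?_
  have hp0 : (0 : ℝ) < p := by exact_mod_cast (hP p hp).pos
  have h2 : ∑ n ∈ Icc 1 ⌊v⌋₊, a n * a4p (p, t) n = ((Real.sqrt p : ℝ) : ℂ)⁻¹ *
      ∑ n ∈ Icc 1 ⌊v⌋₊, ((if p ∣ n then (p : ℂ) else 0) - 1) * (a n * cit (-t) n) := by
    rw [mul_sum]
    refine sum_congr rfl fun n _ => ?_
    unfold a4p a4b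
    ring
  rw [h2, norm_mul, mul_pow, norm_inv, Complex.norm_real, Real.norm_eq_abs,
    abs_of_nonneg (Real.sqrt_nonneg _), inv_pow, Real.sq_sqrt hp0.le, one_div]

end Pool.Agent.Lib.MP_9fe581_an.EXC
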