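import Pool.Agent.Lib.MP_9fe581_an.EXC.Dual
import Pool.Agent.Lib.MP_9fe581_an.EXC.TK

set_option autoImplicit false

/-!
# Consequences of duality and of the Turan-Kubilius inequality for completely multiplicative functions
-/

namespace Pool.Agent.Lib.MP_9fe581_an.EXC

open Finset

/-- The square sum of a bounded function. -/
theorem a5_sq {f : ℕ → ℂ} (hf : ∀ n, ‖f n‖ ≤ 1) {v : ℝ} (hv : 0 ≤ v) :
    ∑ n ∈ Icc 1 ⌊v⌋₊, ‖f n‖ ^ 2 ≤ v := by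
  calc ∑ n ∈ Icc 1 ⌊v⌋₊, ‖f n‖ ^ 2 ≤ ∑ _n ∈ Icc 1 ⌊v⌋₊, (1 : ℝ) :=
        Finset.sum_le_sum fun n _ => pow_le_one₀ (norm_nonneg _) (hf n)
    _ = (⌊v⌋₊ : ℝ) := by simp
    _ ≤ v := Nat.floor_le hv

theorem ee_le {B : Finset ℝ} (hB : Sep B) {Y0 Y1 ρ : ℝ} (hY0 : 1 ≤ Y0) (hρ : 0 ≤ ρ)
    (hK : Ker B Y0 Y1 ρ) (hBρ : B.card * ρ ≤ 1) {v : ℝ} (hv : Y0 ≤ v) (hv1 : v ≤ Y1)
    {f : ℕ → ℂ} (hf : CM f) : EE f B v ≤ 30 := by
  have hv0 : 0 < v := by linarith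
  have h1 := dd hB hY0 hρ hK hBρ hv hv1 f
  have h2 := a5_sq hf.le hv0.le
  have h3 : EE f B v = (∑ t ∈ B, ‖∑ n ∈ Icc 1 ⌊v⌋₊, f n * cit (-t) n‖ ^ 2) / v ^ 2 := by
    unfold EE MM
    rw [Finset.sum_div]
    refine Finset.sum_congr rfl fun t _ => ?_
    rw [norm_div, Complex.norm_real, Real.norm_eq_abs, abs_of_pos hv0, div_pow]
  rw [h3, div_le_iff₀ (by positivity)]
  calc _ ≤ 30 * v * ∑ n ∈ Icc 1 ⌊v⌋₊, ‖f n‖ ^ 2 := h1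
    _ ≤ 30 * v * v := mul_le_mul_of_nonneg_left h2 (by positivity)
    _ = 30 * v ^ 2 := by ring

theorem tkf {B : Finset ℝ} (hB : Sep B) {Y0 Y1 ρ : ℝ} (hY0 : 1 ≤ Y0) (hρ : 0 ≤ ρ)
    (hK : Ker B Y0 Y1 ρ) (P : Finset ℕ) (hP : ∀ p ∈ P, p.Prime) {P0 : ℝ} (hP0 : ∀ p ∈ P, (p : ℝ) ≤ P0)
    (hBρ : B.card * ρ * (1 + ∑ p ∈ P, 1 / (p : ℝ)) ≤ 1 / 4)
    {v : ℝ} (hv : Y0 * P0 ^ 2 ≤ v) (hv0 : Y0 ≤ v) (hv1 : v ≤ Y1) {f : ℕ → ℂ} (hf : CM f) :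
    ∑ p ∈ P, (1 / (p : ℝ)) * ∑ t ∈ B,
        ‖f p * cit (-t) p * MM f (v / p) t - MM f v t‖ ^ 2 ≤ 30 := by
  have hvp : 0 < v := by linarith
  have h1 := tk hB hY0 hρ hK P hP hP0 hBρ hv hv0 hv1 f
  have h2 := a5_sq hf.le hvp.le
  have h3 : ∀ p ∈ P, ∀ t : ℝ, ‖f p * cit (-t) p * MM f (v / p) t - MM f v t‖ ^ 2 =
      ‖∑ n ∈ Icc 1 ⌊v⌋₊, ((if p ∣ n then (p : ℂ) else 0) - 1) * (f n * cit (-t) n)‖ ^ 2 /
        v ^ 2 := by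
    intro p hp t
    have hpp : 0 < p := (hP p hp).pos
    have h4 : f p * cit (-t) p * MM f (v / p) t - MM f v t =
        (∑ n ∈ Icc 1 ⌊v⌋₊, ((if p ∣ n then (p : ℂ) else 0) - 1) * (f n * cit (-t) n)) /
          (v : ℂ) := by
      rw [← sum_mult hf hpp hvp t]
      unfold MM
      rw [← sub_div, ← Finset.sum_sub_distrib]
      congr 1
      refine Finset.sum_congr rfl fun n _ => ?_
      ring
    rw [h4, norm_div, Complex.norm_real, Real.norm_eq_abs, abs_of_pos hvp, div_pow]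
  have h5 : ∑ p ∈ P, (1 / (p : ℝ)) * ∑ t ∈ B,
        ‖f p * cit (-t) p * MM f (v / p) t - MM f v t‖ ^ 2 =
      (∑ p ∈ P, (1 / (p : ℝ)) * ∑ t ∈ B,
        ‖∑ n ∈ Icc 1 ⌊v⌋₊, ((if p ∣ n then (p : ℂ) else 0) - 1) * (f n * cit (-t) n)‖ ^ 2) /
        v ^ 2 := by
    rw [Finset.sum_div]
    refine Finset.sum_congr rfl fun p hp => ?_
    rw [Finset.sum_congr rfl fun t _ => h3 p hp t, ← Finset.sum_div, mul_div_assoc]
  rw [h5, div_le_iff₀ (by positivity)]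
  calc _ ≤ 30 * v * ∑ n ∈ Icc 1 ⌊v⌋₊, ‖f n‖ ^ 2 := h1
    _ ≤ 30 * v * v := mul_le_mul_of_nonneg_left h2 (by positivity)
    _ = 30 * v ^ 2 := by ring

/-- Minkowski form: `V M(v) = ∑ (1/p) f(p) p^(-it) M(v/p)` up to `6 sqrt V` in `l2(B)` -/
theorem tkf_mean {B : Finset ℝ} (hB : Sep B) {Y0 Y1 ρ : ℝ} (hY0 : 1 ≤ Y0) (hρ : 0 ≤ ρ)
    (hK : Ker B Y0 Y1 ρ) (P : Finset ℕ) (hP : ∀ p ∈ P, p.Prime) {P0 : ℝ} (hP0 : ∀ p ∈ P, (p : ℝ) ≤ P0)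
    (hBρ : B.card * ρ * (1 + ∑ p ∈ P, 1 / (p : ℝ)) ≤ 1 / 4)
    {v : ℝ} (hv : Y0 * P0 ^ 2 ≤ v) (hv0 : Y0 ≤ v) (hv1 : v ≤ Y1) {f : ℕ → ℂ} (hf : CM f) :
    ∑ t ∈ B, ‖(∑ p ∈ P, 1 / (p : ℂ)) * MM f v t -
        ∑ p ∈ P, (1 / (p : ℂ)) * (f p * cit (-t) p * MM f (v / p) t)‖ ^ 2 ≤
      30 * ∑ p ∈ P, 1 / (p : ℝ) := by
  have h1 := tkf hB hY0 hρ hK P hP hP0 hBρ hv hv0 hv1 hf
  set V : ℝ := ∑ p ∈ P, 1 / (p : ℝ) with hV
  have hV0 : 0 ≤ V := Finset.sum_nonneg fun p _ => by positivity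
  have h2 : ∀ t ∈ B, ‖(∑ p ∈ P, 1 / (p : ℂ)) * MM f v t -
        ∑ p ∈ P, (1 / (p : ℂ)) * (f p * cit (-t) p * MM f (v / p) t)‖ ^ 2 ≤
      V * ∑ p ∈ P, (1 / (p : ℝ)) * ‖f p * cit (-t) p * MM f (v / p) t - MM f v t‖ ^ 2 := by
    intro t _
    have h3 : ‖(∑ p ∈ P, 1 / (p : ℂ)) * MM f v t -
        ∑ p ∈ P, (1 / (p : ℂ)) * (f p * cit (-t) p * MM f (v / p) t)‖ ≤
        ∑ p ∈ P, Real.sqrt (1 / (p : ℝ)) *
          (Real.sqrt (1 / (p : ℝ)) * ‖f p * cit (-t) p * MM f (v / p) t - MM f v t‖) := by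
      have h4 : (∑ p ∈ P, 1 / (p : ℂ)) * MM f v t -
          ∑ p ∈ P, (1 / (p : ℂ)) * (f p * cit (-t) p * MM f (v / p) t) =
          ∑ p ∈ P, -((1 / (p : ℂ)) * (f p * cit (-t) p * MM f (v / p) t - MM f v t)) := by
        rw [Finset.sum_mul, ← Finset.sum_sub_distrib]
        refine Finset.sum_congr rfl fun p _ => ?_
        ring
      rw [h4]
      refine (norm_sum_le _ _).trans (le_of_eq ?_)
      refine Finset.sum_congr rfl fun p _ => ?_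
      have h5 : ‖(1 / (p : ℂ))‖ = 1 / (p : ℝ) := by
        rw [norm_div, norm_one, Complex.norm_natCast]
      rw [norm_neg, norm_mul, h5, ← mul_assoc, Real.mul_self_sqrt (by positivity)]
    calc _ ≤ (∑ p ∈ P, Real.sqrt (1 / (p : ℝ)) *
          (Real.sqrt (1 / (p : ℝ)) * ‖f p * cit (-t) p * MM f (v / p) t - MM f v t‖)) ^ 2 :=
          pow_le_pow_left₀ (norm_nonneg _) h3 2
      _ ≤ (∑ p ∈ P, Real.sqrt (1 / (p : ℝ)) ^ 2) * ∑ p ∈ P,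
          (Real.sqrt (1 / (p : ℝ)) * ‖f p * cit (-t) p * MM f (v / p) t - MM f v t‖) ^ 2 :=
          Finset.sum_mul_sq_le_sq_mul_sq _ _ _
      _ = V * ∑ p ∈ P, (1 / (p : ℝ)) *
          ‖f p * cit (-t) p * MM f (v / p) t - MM f v t‖ ^ 2 := by
          congr 1
          · exact Finset.sum_congr rfl fun p _ => Real.sq_sqrt (by positivity)
          · refine Finset.sum_congr rfl fun p _ => ?_
            rw [mul_pow, Real.sq_sqrt (by positivity)]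
  refine (Finset.sum_le_sum h2).trans ?_
  rw [← Finset.mul_sum, Finset.sum_comm]
  simp only [← Finset.mul_sum]
  calc V * ∑ p ∈ P, (1 / (p : ℝ)) * ∑ t ∈ B,
        ‖f p * cit (-t) p * MM f (v / p) t - MM f v t‖ ^ 2 ≤ V * 30 :=
        mul_le_mul_of_nonneg_left h1 hV0
    _ = 30 * V := mul_comm _ _

/-- Lipschitz in `log v` -/
theorem lip {B : Finset ℝ} (hB : Sep B) {Y0 Y1 ρ : ℝ} (hY0 : 1 ≤ Y0) (hρ : 0 ≤ ρ)
    (hK : Ker B Y0 Y1 ρ) (hBρ : B.card * ρ ≤ 1) {v v' h : ℝ} (hv' : Y0 ≤ v') (hvv : v' ≤ v)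
    (hv1 : v ≤ Y1) (hh : v ≤ v' * Real.exp h) (hh0 : 1 / v' ≤ h) (hh1 : h ≤ 1)
    {f : ℕ → ℂ} (hf : CM f) : ∑ t ∈ B, ‖MM f v t - MM f v' t‖ ^ 2 ≤ 200 * h := by
  have hv'0 : 0 < v' := by linarith
  have hv0 : 0 < v := by linarith
  have hh2 : 0 ≤ h := le_trans (by positivity) hh0
  have hfl : ⌊v'⌋₊ ≤ ⌊v⌋₊ := Nat.floor_mono hvv
  set g : ℕ → ℂ := fun n => if n ≤ ⌊v'⌋₊ then 0 else f n with hg
  -- the ratio
  have hr : 1 - v' / v ≤ h := by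
    have h1 : Real.exp (-h) ≤ v' / v := by
      rw [le_div_iff₀ hv0]
      calc Real.exp (-h) * v ≤ Real.exp (-h) * (v' * Real.exp h) :=
            mul_le_mul_of_nonneg_left hh (Real.exp_pos _).le
        _ = v' * (Real.exp (-h) * Real.exp h) := by ring
        _ = v' := by rw [← Real.exp_add, neg_add_cancel, Real.exp_zero, mul_one]
    have h2 := Real.add_one_le_exp (-h)
    linarith
  have hr0 : 0 ≤ 1 - v' / v := by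
    have : v' / v ≤ 1 := by rw [div_le_one hv0]; exact hvv
    linarith
  -- the identity
  have hid : ∀ t : ℝ, MM f v t - MM f v' t =
      (∑ n ∈ Icc 1 ⌊v⌋₊, g n * cit (-t) n) / (v : ℂ) + ((v' / v - 1 : ℝ) : ℂ) * MM f v' t := by
    intro t
    have h1 : ∑ n ∈ Icc 1 ⌊v⌋₊, f n * cit (-t) n =
        ∑ n ∈ Icc 1 ⌊v'⌋₊, f n * cit (-t) n + ∑ n ∈ Icc 1 ⌊v⌋₊, g n * cit (-t) n := by
      have h2 : ∑ n ∈ Icc 1 ⌊v'⌋₊, f n * cit (-t) n =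
          ∑ n ∈ Icc 1 ⌊v⌋₊, if n ≤ ⌊v'⌋₊ then f n * cit (-t) n else 0 := by
        rw [← Finset.sum_filter]
        refine Finset.sum_congr ?_ fun _ _ => rfl
        ext n
        simp only [Finset.mem_Icc, Finset.mem_filter]
        constructor
        · rintro ⟨h3, h4⟩
          exact ⟨⟨h3, h4.trans hfl⟩, h4⟩
        · rintro ⟨⟨h3, -⟩, h4⟩
          exact ⟨h3, h4⟩
      rw [h2, ← Finset.sum_add_distrib]
      refine Finset.sum_congr rfl fun n _ => ?_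
      simp only [hg]
      split_ifs
      · ring
      · ring
    have h3 : (v : ℂ) ≠ 0 := by exact_mod_cast hv0.ne'
    have h4 : (v' : ℂ) ≠ 0 := by exact_mod_cast hv'0.ne'
    unfold MM
    rw [h1]
    push_cast
    field_simp
    ring
  -- the short sum
  have h1 := dd hB hY0 hρ hK hBρ (hv'.trans hvv) hv1 g
  have h2 : ∑ n ∈ Icc 1 ⌊v⌋₊, ‖g n‖ ^ 2 ≤ v - v' + 1 := by
    have h3 : ∑ n ∈ Icc 1 ⌊v⌋₊, ‖g n‖ ^ 2 ≤ ∑ n ∈ Ioc ⌊v'⌋₊ ⌊v⌋₊, (1 : ℝ) := by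
      have h4 : ∀ n ∈ Icc 1 ⌊v⌋₊, ‖g n‖ ^ 2 ≤ if n ∈ Ioc ⌊v'⌋₊ ⌊v⌋₊ then (1 : ℝ) else 0 := by
        intro n hn
        simp only [hg]
        by_cases h5 : n ≤ ⌊v'⌋₊
        · rw [if_pos h5, norm_zero, zero_pow two_ne_zero]
          split_ifs <;> norm_num
        · rw [if_neg h5, if_pos (Finset.mem_Ioc.2 ⟨not_le.1 h5, (Finset.mem_Icc.1 hn).2⟩)]
          exact pow_le_one₀ (norm_nonneg _) (hf.le n)
      refine (Finset.sum_le_sum h4).trans ?_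
      rw [Finset.sum_ite_mem]
      exact Finset.sum_le_sum_of_subset_of_nonneg Finset.inter_subset_right
        fun _ _ _ => zero_le_one
    refine h3.trans ?_
    rw [Finset.sum_const, Nat.card_Ioc, nsmul_eq_mul, mul_one, Nat.cast_sub hfl]
    have h5 := Nat.floor_le hv0.le
    have h6 := Nat.lt_floor_add_one v'
    linarith
  have h3 := ee_le hB hY0 hρ hK hBρ hv' (hvv.trans hv1) hf
  have h4 : ∑ t ∈ B, ‖MM f v t - MM f v' t‖ ^ 2 ≤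
      2 * ((∑ t ∈ B, ‖∑ n ∈ Icc 1 ⌊v⌋₊, g n * cit (-t) n‖ ^ 2) / v ^ 2) +
        2 * (h ^ 2 * EE f B v') := by
    unfold EE
    rw [Finset.sum_div, Finset.mul_sum, Finset.mul_sum, Finset.mul_sum, ← Finset.sum_add_distrib]
    refine Finset.sum_le_sum fun t _ => ?_
    rw [hid t]
    set x := (∑ n ∈ Icc 1 ⌊v⌋₊, g n * cit (-t) n) / (v : ℂ) with hx
    set y := ((v' / v - 1 : ℝ) : ℂ) * MM f v' t with hy
    have h5 : ‖x‖ ^ 2 = ‖∑ n ∈ Icc 1 ⌊v⌋₊, g n * cit (-t) n‖ ^ 2 / v ^ 2 := by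
      rw [hx, norm_div, Complex.norm_real, Real.norm_eq_abs, abs_of_pos hv0, div_pow]
    have h6 : ‖y‖ ^ 2 ≤ h ^ 2 * ‖MM f v' t‖ ^ 2 := by
      rw [hy, norm_mul, mul_pow, Complex.norm_real, Real.norm_eq_abs]
      refine mul_le_mul_of_nonneg_right ?_ (sq_nonneg _)
      rw [sq_abs]
      nlinarith
    have h7 : ‖x + y‖ ^ 2 ≤ 2 * ‖x‖ ^ 2 + 2 * ‖y‖ ^ 2 := by
      have h8 := norm_add_le x y
      have h9 : ‖x + y‖ ^ 2 ≤ (‖x‖ + ‖y‖) ^ 2 := pow_le_pow_left₀ (norm_nonneg _) h8 2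
      nlinarith [sq_nonneg (‖x‖ - ‖y‖)]
    rw [← h5]
    linarith
  have h5 : (∑ t ∈ B, ‖∑ n ∈ Icc 1 ⌊v⌋₊, g n * cit (-t) n‖ ^ 2) / v ^ 2 ≤ 60 * h := by
    rw [div_le_iff₀ (by positivity)]
    have h6 : v - v' + 1 ≤ 2 * h * v := by
      have h7 : v - v' ≤ h * v := by
        have h8 : (1 - v' / v) * v = v - v' := by field_simp
        rw [← h8]
        exact mul_le_mul_of_nonneg_right hr hv0.le
      have h9 : 1 ≤ h * v := by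
        rw [div_le_iff₀ hv'0] at hh0
        nlinarith
      linarith
    calc _ ≤ 30 * v * ∑ n ∈ Icc 1 ⌊v⌋₊, ‖g n‖ ^ 2 := h1
      _ ≤ 30 * v * (2 * h * v) := mul_le_mul_of_nonneg_left (h2.trans h6) (by positivity)
      _ = 60 * h * v ^ 2 := by ring
  have h6 : h ^ 2 * EE f B v' ≤ h * 30 := by
    have h7 : h ^ 2 ≤ h := by nlinarith
    have h8 : 0 ≤ EE f B v' := Finset.sum_nonneg fun _ _ => sq_nonneg _
    exact mul_le_mul h7 h3 h8 hh2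
  linarith

end Pool.Agent.Lib.MP_9fe581_an.EXC
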