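import Pool.Agent.Lib.MP_9fe581_an.EXC.Defs

set_option autoImplicit false

/-!
# Elementary facts about `x^(iu)`
-/

namespace Pool.Agent.Lib.MP_9fe581_an.EXC

open Finset

theorem norm_cit (u x : ℝ) : ‖cit u x‖ = 1 := by
  unfold cit
  rw [mul_comm]
  exact Complex.norm_exp_ofReal_mul_I _

theorem cit_mul (u : ℝ) {x y : ℝ} (hx : 0 < x) (hy : 0 < y) :
    cit u (x * y) = cit u x * cit u y := by
  unfold cit
  rw [← Complex.exp_add, Real.log_mul hx.ne' hy.ne']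
  congr 1
  push_cast
  ring

theorem cit_add (u w x : ℝ) : cit (u + w) x = cit u x * cit w x := by
  unfold cit
  rw [← Complex.exp_add]
  congr 1
  push_cast
  ring

theorem cit_neg (u x : ℝ) : cit (-u) x = (starRingEnd ℂ) (cit u x) := by
  unfold cit
  rw [← Complex.exp_conj, map_mul, Complex.conj_I, Complex.conj_ofReal]
  congr 1
  push_cast
  ring

theorem cit_zero (x : ℝ) : cit 0 x = 1 := by
  unfold cit
  simp

theorem cit_one (u : ℝ) : cit u 1 = 1 := by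
  unfold cit
  simp

/-- `|e^(ia) - e^(ib)| ≤ |a - b|` -/
theorem a0_exp_sub (a b : ℝ) :
    ‖Complex.exp (Complex.I * (a : ℂ)) - Complex.exp (Complex.I * (b : ℂ))‖ ≤ |a - b| := by
  have h1 : Complex.exp (Complex.I * (a : ℂ)) - Complex.exp (Complex.I * (b : ℂ)) =
      Complex.exp (Complex.I * (b : ℂ)) * (Complex.exp (Complex.I * ((a - b : ℝ) : ℂ)) - 1) := by
    rw [mul_sub, ← Complex.exp_add, mul_one]
    congr 2
    push_cast
    ring
  have h2 : ‖Complex.exp (Complex.I * (b : ℂ))‖ = 1 := by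
    rw [mul_comm]
    exact Complex.norm_exp_ofReal_mul_I _
  rw [h1, norm_mul, h2, one_mul, mul_comm]
  have h3 := Real.norm_exp_I_mul_ofReal_sub_one_le (x := a - b)
  rw [mul_comm] at h3
  simpa [Real.norm_eq_abs] using h3

theorem cit_sub_le (u w x : ℝ) : ‖cit u x - cit w x‖ ≤ |u - w| * |Real.log x| := by
  unfold cit
  refine (a0_exp_sub _ _).trans ?_
  rw [← abs_mul, sub_mul]

theorem cit_sub_le' (u : ℝ) {x y : ℝ} (_hx : 0 < x) (_hy : 0 < y) :
    ‖cit u x - cit u y‖ ≤ |u| * |Real.log x - Real.log y| := by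
  unfold cit
  refine (a0_exp_sub _ _).trans ?_
  rw [← abs_mul, mul_sub]

theorem a0_norm_one (u : ℝ) : ‖1 + Complex.I * (u : ℂ)‖ = Real.sqrt (1 + u ^ 2) := by
  rw [Complex.norm_def, Complex.normSq_apply]
  congr 1
  simp
  ring

theorem a0_norm_two (u : ℝ) : ‖2 + Complex.I * (u : ℂ)‖ = Real.sqrt (4 + u ^ 2) := by
  rw [Complex.norm_def, Complex.normSq_apply]
  congr 1
  simp
  ring

theorem norm_kap (u : ℝ) : ‖kap u‖ ≤ 4 / (1 + u ^ 2) := by
  unfold kap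
  rw [norm_div, norm_mul, norm_mul, norm_cit, a0_norm_one, a0_norm_two]
  have h1 : 0 < 1 + u ^ 2 := by positivity
  have h2 : Real.sqrt (1 + u ^ 2) ≤ Real.sqrt (4 + u ^ 2) := Real.sqrt_le_sqrt (by linarith)
  have h3 : 1 + u ^ 2 ≤ Real.sqrt (1 + u ^ 2) * Real.sqrt (4 + u ^ 2) := by
    calc 1 + u ^ 2 = Real.sqrt (1 + u ^ 2) * Real.sqrt (1 + u ^ 2) :=
          (Real.mul_self_sqrt h1.le).symm
      _ ≤ _ := mul_le_mul_of_nonneg_left h2 (Real.sqrt_nonneg _)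
  have h4 : ‖(4 : ℂ)‖ = 4 := by norm_num
  rw [h4, mul_one]
  exact div_le_div_of_nonneg_left (by norm_num) h1 h3

/-- the sum over the multiples of `p` up to `N` -/
theorem a0_mult (p : ℕ) (hp : 0 < p) (N : ℕ) (F : ℕ → ℂ) :
    ∑ n ∈ Icc 1 N, (if p ∣ n then F n else 0) = ∑ m ∈ Icc 1 (N / p), F (p * m) := by
  rw [← Finset.sum_filter]
  symm
  refine Finset.sum_bij (fun m _ => p * m) ?_ ?_ ?_ ?_
  · intro m hm
    rw [mem_Icc] at hm
    rw [mem_filter, mem_Icc]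
    refine ⟨⟨Nat.mul_pos hp hm.1, ?_⟩, Dvd.intro m rfl⟩
    calc p * m ≤ p * (N / p) := Nat.mul_le_mul_left p hm.2
      _ ≤ N := Nat.mul_div_le N p
  · intro m _ m' _ h
    exact Nat.eq_of_mul_eq_mul_left hp h
  · intro n hn
    rw [mem_filter, mem_Icc] at hn
    obtain ⟨⟨h1, h2⟩, ⟨m, rfl⟩⟩ := hn
    refine ⟨m, ?_, rfl⟩
    rw [mem_Icc]
    refine ⟨Nat.pos_of_mul_pos_left h1 |> fun h => ?_, (Nat.le_div_iff_mul_le hp).2 (by
      rw [mul_comm]
      exact h2)⟩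
    rcases Nat.eq_zero_or_pos m with h0 | h0
    · subst h0
      simp at h1
    · exact h0
  · intro m _
    rfl

/-- the sum over the multiples of `p` up to `v` -/
theorem sum_mult {f : ℕ → ℂ} (hf : CM f) {p : ℕ} (hp : 0 < p) {v : ℝ} (hv : 0 < v) (t : ℝ) :
    (∑ n ∈ Icc 1 ⌊v⌋₊, (if p ∣ n then (p : ℂ) else 0) * (f n * cit (-t) n)) / (v : ℂ) =
      f p * cit (-t) p * MM f (v / p) t := by
  have h1 : ∀ n ∈ Icc 1 ⌊v⌋₊, (if p ∣ n then (p : ℂ) else 0) * (f n * cit (-t) n) =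
      if p ∣ n then (p : ℂ) * (f n * cit (-t) n) else 0 := by
    intro n _
    split_ifs
    · rfl
    · rw [zero_mul]
  rw [sum_congr rfl h1, a0_mult p hp ⌊v⌋₊ fun n => (p : ℂ) * (f n * cit (-t) n)]
  have hpr : (0 : ℝ) < p := by exact_mod_cast hp
  have h2 : ∀ m ∈ Icc 1 (⌊v⌋₊ / p), (p : ℂ) * (f (p * m) * cit (-t) ((p * m : ℕ) : ℝ)) =
      (p : ℂ) * (f p * cit (-t) p) * (f m * cit (-t) m) := by
    intro m hm
    rw [mem_Icc] at hm
    have hmr : (0 : ℝ) < m := by exact_mod_cast hm.1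
    rw [hf.mul, Nat.cast_mul, cit_mul (-t) hpr hmr]
    ring
  rw [sum_congr rfl h2, ← mul_sum]
  unfold MM
  rw [Nat.floor_div_natCast]
  have h3 : (v : ℂ) ≠ 0 := by exact_mod_cast hv.ne'
  have h4 : (p : ℂ) ≠ 0 := by exact_mod_cast hpr.ne'
  push_cast
  field_simp

theorem a0_sum (K : ℕ) : ∑ k ∈ range (K + 1), 1 / (1 + (k : ℝ) ^ 2) ≤ 3 - 2 / ((K : ℝ) + 1) := by
  induction K with
  | zero => norm_num
  | succ K ih =>
    rw [sum_range_succ]
    have h1 : (0 : ℝ) ≤ K := Nat.cast_nonneg K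
    have h2 : 1 / (1 + ((K + 1 : ℕ) : ℝ) ^ 2) ≤ 2 / ((K : ℝ) + 1) - 2 / ((K : ℝ) + 1 + 1) := by
      push_cast
      rw [div_sub_div _ _ (by positivity) (by positivity), div_le_div_iff₀ (by positivity)
        (by positivity)]
      nlinarith [mul_nonneg h1 h1]
    have h3 : (((K + 1 : ℕ) : ℝ) + 1) = (K : ℝ) + 1 + 1 := by push_cast; ring
    rw [h3]
    linarith

theorem a0_side (B : Finset ℝ) (s : ℝ → ℝ) (hs : ∀ t ∈ B, 0 ≤ s t)
    (h : ∀ t ∈ B, ∀ t' ∈ B, t ≠ t' → 1 ≤ |s t - s t'|) :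
    ∑ t ∈ B, 1 / (1 + s t ^ 2) ≤ 3 := by
  classical
  have hinj : Set.InjOn (fun t => ⌊s t⌋₊) B := by
    intro t ht t' ht' heq
    by_contra hne
    have h1 := h t ht t' ht' hne
    have h2 := Nat.floor_le (hs t ht)
    have h3 := Nat.lt_floor_add_one (s t)
    have h4 := Nat.floor_le (hs t' ht')
    have h5 := Nat.lt_floor_add_one (s t')
    have heq' : (⌊s t⌋₊ : ℝ) = ⌊s t'⌋₊ := by exact_mod_cast heq
    rcases abs_cases (s t - s t') with ⟨h6, _⟩ | ⟨h6, _⟩ <;> linarith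
  obtain ⟨M, hM⟩ : ∃ M : ℕ, M = (B.image fun t => ⌊s t⌋₊).sup id := ⟨_, rfl⟩
  have hsub : (B.image fun t => ⌊s t⌋₊) ⊆ range (M + 1) := by
    intro k hk
    rw [mem_range, hM]
    exact Nat.lt_succ_of_le (le_sup (f := id) hk)
  have himg : ∑ k ∈ B.image (fun t => ⌊s t⌋₊), 1 / (1 + (k : ℝ) ^ 2) =
      ∑ t ∈ B, 1 / (1 + ((⌊s t⌋₊ : ℕ) : ℝ) ^ 2) :=
    sum_image fun t ht t' ht' hh => hinj ht ht' hh
  calc ∑ t ∈ B, 1 / (1 + s t ^ 2) ≤ ∑ t ∈ B, 1 / (1 + ((⌊s t⌋₊ : ℕ) : ℝ) ^ 2) := by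
        refine sum_le_sum fun t ht => ?_
        have h2 := Nat.floor_le (hs t ht)
        have h3 : ((⌊s t⌋₊ : ℕ) : ℝ) ^ 2 ≤ s t ^ 2 := pow_le_pow_left₀ (Nat.cast_nonneg _) h2 2
        exact one_div_le_one_div_of_le (by positivity) (by linarith)
    _ ≤ ∑ k ∈ range (M + 1), 1 / (1 + (k : ℝ) ^ 2) := by
        rw [← himg]
        exact sum_le_sum_of_subset_of_nonneg hsub fun k _ _ => by positivity
    _ ≤ 3 := by
        refine (a0_sum _).trans ?_
        have : (0 : ℝ) ≤ 2 / ((M : ℝ) + 1) := by positivity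
        linarith

/-- one `t` against the others -/
theorem spaced {B : Finset ℝ} (h : Sep B) (t : ℝ) : ∑ t' ∈ B, 1 / (1 + (t - t') ^ 2) ≤ 6 := by
  classical
  have h1 := a0_side (B.filter fun t' => t' ≤ t) (fun t' => t - t')
    (fun t' ht' => by linarith [(mem_filter.1 ht').2]) (fun a ha b hb hab => by
      have h2 := h a (mem_filter.1 ha).1 b (mem_filter.1 hb).1 hab
      have h3 : t - a - (t - b) = -(a - b) := by ring
      rw [h3, abs_neg]
      exact h2)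
  have h2 := a0_side (B.filter fun t' => ¬ t' ≤ t) (fun t' => t' - t)
    (fun t' ht' => by linarith [not_le.1 (mem_filter.1 ht').2]) (fun a ha b hb hab => by
      have h2 := h a (mem_filter.1 ha).1 b (mem_filter.1 hb).1 hab
      have h3 : a - t - (b - t) = a - b := by ring
      rw [h3]
      exact h2)
  have h3 : ∀ t' : ℝ, (t' - t) ^ 2 = (t - t') ^ 2 := fun t' => by ring
  simp only [h3] at h2
  rw [← sum_filter_add_sum_filter_not B (fun t' => t' ≤ t)]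
  linarith

end Pool.Agent.Lib.MP_9fe581_an.EXC
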