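import Pool.Agent.Lib.MP_9fe581_an.EXC.Cit

set_option autoImplicit false

/-!
# Duality: the mean value inequality over a sparse set
-/

namespace Pool.Agent.Lib.MP_9fe581_an.EXC

open Finset

/-- Duality with a majorant weight. -/
theorem dual {ι : Type} (I : Finset ι) (N N' : ℕ) (hN : N ≤ N') (w : ℕ → ℝ)
    (hw : ∀ n ∈ Icc 1 N', 0 ≤ w n) (hw1 : ∀ n ∈ Icc 1 N, 1 ≤ w n) (φ : ι → ℕ → ℂ) (Δ : ℝ)
    (hΔ : 0 ≤ Δ)
    (h : ∀ c : ι → ℂ, ∑ n ∈ Icc 1 N', w n * ‖∑ i ∈ I, c i * φ i n‖ ^ 2 ≤ Δ * ∑ i ∈ I, ‖c i‖ ^ 2)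
    (a : ℕ → ℂ) :
    ∑ i ∈ I, ‖∑ n ∈ Icc 1 N, a n * φ i n‖ ^ 2 ≤ Δ * ∑ n ∈ Icc 1 N, ‖a n‖ ^ 2 := by
  set A : ι → ℂ := fun i => ∑ n ∈ Icc 1 N, a n * φ i n with hA
  set S : ℝ := ∑ i ∈ I, ‖A i‖ ^ 2 with hS
  set R : ℝ := ∑ n ∈ Icc 1 N, ‖a n‖ ^ 2 with hR
  have hS0 : 0 ≤ S := Finset.sum_nonneg fun i _ => sq_nonneg _
  have hR0 : 0 ≤ R := Finset.sum_nonneg fun i _ => sq_nonneg _
  set G : ℕ → ℂ := fun n => ∑ i ∈ I, (starRingEnd ℂ) (A i) * φ i n with hG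
  have h1 : (S : ℂ) = ∑ n ∈ Icc 1 N, a n * G n := by
    have h2 : (S : ℂ) = ∑ i ∈ I, (starRingEnd ℂ) (A i) * A i := by
      rw [hS]
      push_cast
      refine Finset.sum_congr rfl fun i _ => ?_
      rw [Complex.conj_mul']
    rw [h2]
    have h3 : ∀ i ∈ I, (starRingEnd ℂ) (A i) * A i =
        ∑ n ∈ Icc 1 N, a n * ((starRingEnd ℂ) (A i) * φ i n) := by
      intro i _
      conv_lhs => rw [hA]
      simp only
      rw [Finset.mul_sum]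
      refine Finset.sum_congr rfl fun n _ => ?_
      ring
    rw [Finset.sum_congr rfl h3, Finset.sum_comm]
    refine Finset.sum_congr rfl fun n _ => ?_
    rw [hG]
    simp only
    rw [Finset.mul_sum]
  have h4 : ∑ n ∈ Icc 1 N, ‖G n‖ ^ 2 ≤ Δ * S := by
    have h5 := h fun i => (starRingEnd ℂ) (A i)
    have h6 : ∑ i ∈ I, ‖(starRingEnd ℂ) (A i)‖ ^ 2 = S := by
      rw [hS]
      refine Finset.sum_congr rfl fun i _ => ?_
      rw [RCLike.norm_conj]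
    rw [h6] at h5
    refine le_trans ?_ h5
    have h7 : ∑ n ∈ Icc 1 N, ‖G n‖ ^ 2 ≤ ∑ n ∈ Icc 1 N, w n * ‖G n‖ ^ 2 := by
      refine Finset.sum_le_sum fun n hn => ?_
      have := mul_le_mul_of_nonneg_right (hw1 n hn) (sq_nonneg ‖G n‖)
      linarith
    refine h7.trans ?_
    refine Finset.sum_le_sum_of_subset_of_nonneg (Finset.Icc_subset_Icc_right hN) ?_
    intro n hn _
    exact mul_nonneg (hw n hn) (sq_nonneg _)
  have h8 : S ^ 2 ≤ R * (Δ * S) := by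
    have h9 : S ≤ ∑ n ∈ Icc 1 N, ‖a n‖ * ‖G n‖ := by
      have h10 : ‖(S : ℂ)‖ ≤ ∑ n ∈ Icc 1 N, ‖a n‖ * ‖G n‖ := by
        rw [h1]
        refine (norm_sum_le _ _).trans (le_of_eq ?_)
        refine Finset.sum_congr rfl fun n _ => ?_
        rw [norm_mul]
      rwa [Complex.norm_real, Real.norm_eq_abs, abs_of_nonneg hS0] at h10
    calc S ^ 2 ≤ (∑ n ∈ Icc 1 N, ‖a n‖ * ‖G n‖) ^ 2 := pow_le_pow_left₀ hS0 h9 2
      _ ≤ (∑ n ∈ Icc 1 N, ‖a n‖ ^ 2) * ∑ n ∈ Icc 1 N, ‖G n‖ ^ 2 :=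
          Finset.sum_mul_sq_le_sq_mul_sq _ _ _
      _ ≤ R * (Δ * S) := mul_le_mul_of_nonneg_left h4 hR0
  rcases hS0.eq_or_lt with h9 | h9
  · rw [← h9]
    exact mul_nonneg hΔ hR0
  · have h10 : S * S ≤ S * (Δ * R) := by nlinarith
    exact le_of_mul_le_mul_left h10 h9

/-- Schur's test for a kernel on a finite set. -/
theorem a3_schur (B : Finset ℝ) (K : ℝ → ℝ → ℂ) (k : ℝ → ℝ → ℝ) (hk : ∀ s t, k s t = k t s)
    (hK : ∀ s ∈ B, ∀ t ∈ B, ‖K s t‖ ≤ k s t) (Δ : ℝ) (hΔ : ∀ s ∈ B, ∑ t ∈ B, k s t ≤ Δ)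
    (c : ℝ → ℂ) :
    ‖∑ s ∈ B, ∑ t ∈ B, c s * (starRingEnd ℂ) (c t) * K s t‖ ≤ Δ * ∑ s ∈ B, ‖c s‖ ^ 2 := by
  have h1 : ‖∑ s ∈ B, ∑ t ∈ B, c s * (starRingEnd ℂ) (c t) * K s t‖ ≤
      ∑ s ∈ B, ∑ t ∈ B, (‖c s‖ ^ 2 / 2 * k s t + ‖c t‖ ^ 2 / 2 * k s t) := by
    refine (norm_sum_le _ _).trans (Finset.sum_le_sum fun s hs => ?_)
    refine (norm_sum_le _ _).trans (Finset.sum_le_sum fun t ht => ?_)
    rw [norm_mul, norm_mul, RCLike.norm_conj]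
    have h2 := hK s hs t ht
    have h3 : 0 ≤ k s t := (norm_nonneg _).trans h2
    have h4 : ‖c s‖ * ‖c t‖ ≤ ‖c s‖ ^ 2 / 2 + ‖c t‖ ^ 2 / 2 := by
      nlinarith [sq_nonneg (‖c s‖ - ‖c t‖)]
    calc ‖c s‖ * ‖c t‖ * ‖K s t‖ ≤ (‖c s‖ ^ 2 / 2 + ‖c t‖ ^ 2 / 2) * k s t :=
          mul_le_mul h4 h2 (norm_nonneg _) (by positivity)
      _ = _ := by ring
  refine h1.trans ?_
  simp only [Finset.sum_add_distrib, ← Finset.mul_sum]
  have h5 : ∑ s ∈ B, ‖c s‖ ^ 2 / 2 * ∑ t ∈ B, k s t ≤ ∑ s ∈ B, ‖c s‖ ^ 2 / 2 * Δ :=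
    Finset.sum_le_sum fun s hs => mul_le_mul_of_nonneg_left (hΔ s hs) (by positivity)
  have h6 : ∑ s ∈ B, ∑ t ∈ B, ‖c t‖ ^ 2 / 2 * k s t ≤ ∑ t ∈ B, ‖c t‖ ^ 2 / 2 * Δ := by
    rw [Finset.sum_comm]
    refine Finset.sum_le_sum fun t ht => ?_
    rw [← Finset.mul_sum]
    refine mul_le_mul_of_nonneg_left ?_ (by positivity)
    rw [Finset.sum_congr rfl fun s _ => hk s t]
    exact hΔ t ht
  calc ∑ s ∈ B, ‖c s‖ ^ 2 / 2 * ∑ t ∈ B, k s t + ∑ s ∈ B, ∑ t ∈ B, ‖c t‖ ^ 2 / 2 * k s t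
      ≤ ∑ s ∈ B, ‖c s‖ ^ 2 / 2 * Δ + ∑ t ∈ B, ‖c t‖ ^ 2 / 2 * Δ := add_le_add h5 h6
    _ = Δ * ∑ s ∈ B, ‖c s‖ ^ 2 := by
        rw [← Finset.sum_add_distrib, Finset.mul_sum]
        refine Finset.sum_congr rfl fun s _ => ?_
        ring

/-- The weighted mean square of a sum over `B` is the quadratic form of the kernel. -/
theorem a3_form (B : Finset ℝ) (c : ℝ → ℂ) (v : ℝ) :
    ((∑ n ∈ Icc 1 ⌊2 * v⌋₊, (2 - (n : ℝ) / v) * ‖∑ t ∈ B, c t * cit (-t) n‖ ^ 2 : ℝ) : ℂ) =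
      ∑ s ∈ B, ∑ t ∈ B, c s * (starRingEnd ℂ) (c t) * WW (t - s) v := by
  push_cast
  have h1 : ∀ n : ℕ, ((‖∑ t ∈ B, c t * cit (-t) n‖ : ℝ) : ℂ) ^ 2 =
      ∑ s ∈ B, ∑ t ∈ B, c s * (starRingEnd ℂ) (c t) * cit (t - s) n := by
    intro n
    rw [← Complex.mul_conj', map_sum, Finset.sum_mul_sum]
    refine Finset.sum_congr rfl fun s _ => Finset.sum_congr rfl fun t _ => ?_
    rw [map_mul, cit_neg t, Complex.conj_conj, sub_eq_add_neg t s, cit_add]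
    ring
  simp only [h1, WW, Finset.mul_sum]
  rw [Finset.sum_comm]
  refine Finset.sum_congr rfl fun s _ => ?_
  rw [Finset.sum_comm]
  refine Finset.sum_congr rfl fun t _ => Finset.sum_congr rfl fun n _ => ?_
  push_cast
  ring

/-- (D): the mean value inequality over a sparse set. -/
theorem dd {B : Finset ℝ} (hB : Sep B) {Y0 Y1 ρ : ℝ} (hY0 : 1 ≤ Y0) (hρ : 0 ≤ ρ)
    (hK : Ker B Y0 Y1 ρ) (hBρ : B.card * ρ ≤ 1) {v : ℝ} (hv : Y0 ≤ v) (hv1 : v ≤ Y1) (a : ℕ → ℂ) :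
    ∑ t ∈ B, ‖∑ n ∈ Icc 1 ⌊v⌋₊, a n * cit (-t) n‖ ^ 2 ≤ 30 * v * ∑ n ∈ Icc 1 ⌊v⌋₊, ‖a n‖ ^ 2 := by
  have hv0 : 0 < v := by linarith
  refine dual B ⌊v⌋₊ ⌊2 * v⌋₊ (Nat.floor_mono (by linarith)) (fun n => 2 - (n : ℝ) / v) ?_ ?_
    (fun t n => cit (-t) n) (30 * v) (by positivity) ?_ a
  · intro n hn
    have h1 : (n : ℝ) ≤ 2 * v := (Nat.le_floor_iff (by positivity)).1 (Finset.mem_Icc.1 hn).2
    have h2 : (n : ℝ) / v ≤ 2 := by rw [div_le_iff₀ hv0]; exact h1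
    linarith
  · intro n hn
    have h1 : (n : ℝ) ≤ v := (Nat.le_floor_iff hv0.le).1 (Finset.mem_Icc.1 hn).2
    have h2 : (n : ℝ) / v ≤ 1 := by rw [div_le_one hv0]; exact h1
    linarith
  · intro c
    have h1 := a3_form B c v
    have h2 := a3_schur B (fun s t => WW (t - s) v)
      (fun s t => v * (4 * (1 / (1 + (s - t) ^ 2)) + ρ)) (fun s t => by
        have : (s - t) ^ 2 = (t - s) ^ 2 := by ring
        rw [this]) (fun s hs t ht => by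
        have h3 := hK t ht s hs v hv hv1
        have h4 : ‖(v : ℂ) * cit (t - s) v * kap (t - s)‖ ≤ v * (4 / (1 + (t - s) ^ 2)) := by
          rw [norm_mul, norm_mul, norm_cit, mul_one, Complex.norm_real, Real.norm_eq_abs,
            abs_of_pos hv0]
          exact mul_le_mul_of_nonneg_left (norm_kap _) hv0.le
        have h5 : ‖WW (t - s) v‖ ≤ ρ * v + v * (4 / (1 + (t - s) ^ 2)) := by
          have h6 : WW (t - s) v = (WW (t - s) v - v * cit (t - s) v * kap (t - s)) +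
              v * cit (t - s) v * kap (t - s) := by ring
          rw [h6]
          exact (norm_add_le _ _).trans (add_le_add h3 h4)
        refine h5.trans (le_of_eq ?_)
        have : (s - t) ^ 2 = (t - s) ^ 2 := by ring
        rw [this]
        ring) (30 * v) (fun s hs => by
        rw [← Finset.mul_sum, Finset.sum_add_distrib, ← Finset.mul_sum, Finset.sum_const,
          nsmul_eq_mul]
        have h3 := spaced hB s
        nlinarith) c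
    rw [← h1, Complex.norm_real, Real.norm_eq_abs] at h2
    exact (le_abs_self _).trans h2

end Pool.Agent.Lib.MP_9fe581_an.EXC
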